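import Pool.Agent.Helper16_OCG.Unit

/-!
# MP_64dd91_co: exact extensions of two-layer positions
-/

set_option autoImplicit false

namespace Pool.Agent.Helper16_OCG

open Finset Pool.Agent.Helper51_OCG Pool.Agent.Helper15_OCG

variable {n : ℕ} {P : Position n} {A B : Finset (Fin n)} {kU kD : ℕ}

/-- The number of relations guaranteed by a full envelope. -/
def cp (a k : ℕ) : ℕ := ∑ s ∈ range (min k (a - 1)), (k - s)

theorem two_sum (k : ℕ) : ∀ m : ℕ, m ≤ k →
    2 * ∑ s ∈ range m, (k - s) + (k - m) * (k - m + 1) = k * (k + 1) := by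
  intro m
  induction m with
  | zero => intro _; simp
  | succ m ih =>
    intro hm
    have h1 := ih (by omega)
    rw [sum_range_succ]
    obtain ⟨j, rfl⟩ : ∃ j, k = m + 1 + j := ⟨k - (m + 1), by omega⟩
    have e1 : m + 1 + j - m = j + 1 := by omega
    have e2 : m + 1 + j - (m + 1) = j := by omega
    rw [e1] at h1 ⊢
    rw [e2]
    nlinarith

theorem cp_full {a k : ℕ} (h : k + 1 ≤ a) : 2 * cp a k = k * (k + 1) := by
  have h1 := two_sum k k le_rfl
  have e : min k (a - 1) = k := by omega
  unfold cp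
  rw [e]
  simpa using h1

theorem cp_part {a k : ℕ} (h1 : 1 ≤ a) (h2 : a ≤ k + 1) :
    2 * cp a k + (k + 1 - a) * (k + 1 - a + 1) = k * (k + 1) := by
  have h3 := two_sum k (a - 1) (by omega)
  have e : min k (a - 1) = a - 1 := by omega
  have e2 : k - (a - 1) = k + 1 - a := by omega
  unfold cp
  rw [e]
  rw [e2] at h3
  exact h3

theorem card_out (B : Finset (Fin n)) : (univ.filter fun y => y ∉ B).card = n - B.card := by
  have h1 : (univ.filter fun y => y ∉ B) = Bᶜ := by
    ext y
    simp
  rw [h1, card_compl, Fintype.card_fin]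

theorem card_ge (h : St P A B kU kD) :
    A.card * B.card + (P.filter fun p => p.2 ∉ B).card + (P.filter fun p => p.1 ∉ A).card ≤
      P.card := by
  have hd1 : Disjoint (A ×ˢ B) (P.filter fun p => p.2 ∉ B) := by
    rw [Finset.disjoint_left]
    intro p hp hp2
    rw [mem_product] at hp
    rw [mem_filter] at hp2
    exact hp2.2 hp.2
  have hd2 : Disjoint (A ×ˢ B ∪ P.filter fun p => p.2 ∉ B) (P.filter fun p => p.1 ∉ A) := by
    rw [Finset.disjoint_left]
    intro p hp hp2
    rw [mem_filter] at hp2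
    rcases mem_union.mp hp with h1 | h1
    · rw [mem_product] at h1
      exact hp2.2 h1.1
    · rw [mem_filter] at h1
      rcases h.loc p.1 p.2 h1.1 with h3 | h3
      · exact hp2.2 h3
      · exact h1.2 h3
  rw [← card_product, ← card_union_of_disjoint hd1, ← card_union_of_disjoint hd2]
  apply card_le_card
  intro p hp
  rcases mem_union.mp hp with h1 | h1
  · rcases mem_union.mp h1 with h2 | h2
    · rw [mem_product] at h2
      exact h.full p.1 h2.1 p.2 h2.2
    · exact (mem_filter.mp h2).1
  · exact (mem_filter.mp h1).1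

theorem sum_wU_le (m : ℕ) :
    ∑ s ∈ range m, (wU P B s).card ≤ (P.filter fun p => p.2 ∉ B).card := by
  have h1 : ∑ s ∈ range m, (wU P B s).card ≤
      ∑ y ∈ univ.filter (fun y => y ∉ B), (Dn P y).card := by
    have h2 : ∀ s ∈ range m, (wU P B s).card =
        ∑ y ∈ univ.filter (fun y => y ∉ B), if s < (Dn P y).card then 1 else 0 := by
      intro s _
      rw [← card_filter, filter_filter]
      rfl
    rw [sum_congr rfl h2, sum_comm]
    apply sum_le_sum
    intro y _
    rw [← card_filter]
    have h3 : ((range m).filter fun s => s < (Dn P y).card) ⊆ range (Dn P y).card := by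
      intro s hs
      rw [mem_filter] at hs
      exact mem_range.mpr hs.2
    have := card_le_card h3
    rwa [card_range] at this
  refine h1.trans ?_
  rw [← card_sigma]
  apply card_le_card_of_injOn (fun q => (q.2, q.1))
  · intro q hq
    rw [mem_coe, mem_sigma, mem_filter] at hq
    rw [mem_coe, mem_filter]
    exact ⟨mem_Dn.mp hq.2, hq.1.2⟩
  · rintro ⟨a, b⟩ _ ⟨c, d⟩ _ h2
    rw [Prod.mk.injEq] at h2
    obtain ⟨h3, h4⟩ := h2
    subst h3 h4
    rfl

theorem filter_rev_card (A : Finset (Fin n)) :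
    ((rev P).filter fun p => p.2 ∉ A).card = (P.filter fun p => p.1 ∉ A).card := by
  have h1 : ((rev P).filter fun p => p.2 ∉ A) = (P.filter fun p => p.1 ∉ A).image Prod.swap := by
    ext ⟨x, y⟩
    rw [mem_filter, mem_rev, mem_image]
    constructor
    · rintro ⟨h2, h3⟩
      exact ⟨(y, x), mem_filter.mpr ⟨h2, h3⟩, rfl⟩
    · rintro ⟨⟨a, b⟩, h2, h3⟩
      rw [mem_filter] at h2
      rw [Prod.swap_prod_mk, Prod.mk.injEq] at h3
      obtain ⟨rfl, rfl⟩ := h3
      exact h2
  rw [h1, card_image_of_injective _ Prod.swap_injective]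

theorem unit_ext_rev (h : St P A B kU kD) (hY : kD < (univ.filter fun y => y ∉ A).card) (s : ℕ)
    (hs : s + 1 < B.card) (hw : (wU (rev P) A s).card + s < kD) :
    ∃ P' : Position n, P ⊆ P' ∧ P'.card = P.card + 1 ∧ St P' A B kU kD := by
  obtain ⟨Q, hQ, hc, hst⟩ := unit_ext h.rev hY s hs hw
  refine ⟨rev Q, ?_, ?_, hst.rev⟩
  · have := rev_mono hQ
    rwa [rev_rev] at this
  · rw [card_rev, hc, card_rev]

/-- Unit extension below the capacity. -/
theorem unit_cap (h : St P A B kU kD) (hU : kU + B.card < n) (hD : kD + A.card < n)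
    (hc : P.card < A.card * B.card + cp A.card kU + cp B.card kD) :
    ∃ P' : Position n, P ⊆ P' ∧ P'.card = P.card + 1 ∧ St P' A B kU kD := by
  by_contra hcon
  have hU' : kU < (univ.filter fun y => y ∉ B).card := by
    rw [card_out]
    omega
  have hD' : kD < (univ.filter fun y => y ∉ A).card := by
    rw [card_out]
    omega
  have h1 : cp A.card kU ≤ (P.filter fun p => p.2 ∉ B).card := by
    refine le_trans ?_ (sum_wU_le (min kU (A.card - 1)))
    apply sum_le_sum
    intro s hs
    rw [mem_range] at hs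
    by_contra h2
    exact hcon (unit_ext h hU' s (by omega) (by omega))
  have h2 : cp B.card kD ≤ (P.filter fun p => p.1 ∉ A).card := by
    rw [← filter_rev_card]
    refine le_trans ?_ (sum_wU_le (min kD (B.card - 1)))
    apply sum_le_sum
    intro s hs
    rw [mem_range] at hs
    by_contra h2
    exact hcon (unit_ext_rev h hD' s (by omega) (by omega))
  have h3 := card_ge h
  omega

/-- Exact extension below the capacity. -/
theorem burn (hU : kU + B.card < n) (hD : kD + A.card < n) : ∀ (d : ℕ) (P : Position n),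
    St P A B kU kD → P.card + d ≤ A.card * B.card + cp A.card kU + cp B.card kD →
    ∃ P' : Position n, P ⊆ P' ∧ P'.card = P.card + d ∧ St P' A B kU kD := by
  intro d
  induction d with
  | zero => intro P h _; exact ⟨P, Subset.refl _, rfl, h⟩
  | succ d ih =>
    intro P h hc
    obtain ⟨P₁, hP₁, hc₁, hst₁⟩ := unit_cap h hU hD (by omega)
    obtain ⟨P₂, hP₂, hc₂, hst₂⟩ := ih P₁ hst₁ (by omega)
    exact ⟨P₂, hP₁.trans hP₂, by omega, hst₂⟩

/-- Two incomparable vertices outside `B`: unit extension if all vertices are in `A ∪ B`. -/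
theorem unit_all (h : St P A B (A.card - 1) kD) (hall : ∀ x, x ∈ A ∨ x ∈ B) {u v : Fin n}
    (huv : u ≠ v) (hu : u ∉ B) (hv : v ∉ B) (h1 : (u, v) ∉ P) (h2 : (v, u) ∉ P) :
    ∃ P' : Position n, P ⊆ P' ∧ P'.card = P.card + 1 ∧ St P' A B (A.card - 1) kD := by
  wlog hle : (Dn P u).card ≤ (Dn P v).card generalizing u v
  · exact this huv.symm hv hu h2 h1 (not_le.mp hle).le
  have hAB : ∀ y, y ∉ B → y ∈ A := fun y hy => (hall y).resolve_right hy
  have hDA : ∀ x z, z ∉ B → x ∈ Dn P z → x ∈ A := by
    intro x z hz hx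
    rcases h.loc x z (mem_Dn.mp hx) with h1 | h1
    · exact h1
    · exact absurd h1 hz
  have huA : u ∈ A := hAB u hu
  have hY : A.card - 1 < (univ.filter fun y => y ∉ B).card := by
    have h3 : A ⊆ univ.filter fun y => y ∉ B := by
      intro y hy
      exact mem_filter.mpr ⟨mem_univ _, h.disj y hy⟩
    have := card_le_card h3
    have := card_pos.mpr ⟨u, huA⟩
    omega
  have key : ∀ (s : ℕ) (R : Finset (Fin n)), Disjoint (wU P B s) (Dn P v) →
      Disjoint (wU P B s ∪ Dn P v) R → R ⊆ A → (wU P B s).card + (Dn P v).card + R.card ≤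
        A.card := by
    intro s R hd1 hd2 hR
    rw [← card_union_of_disjoint hd1, ← card_union_of_disjoint hd2]
    apply card_le_card
    intro y hy
    rcases mem_union.mp hy with h3 | h3
    · rcases mem_union.mp h3 with h4 | h4
      · exact hAB y (mem_wU.mp h4).1
      · exact hDA y v hv h4
    · exact hR h3
  rcases eq_or_lt_of_le hle with heq | hlt
  · -- equal sizes
    have hd1 : Disjoint (wU P B (Dn P v).card) (Dn P v) := by
      rw [Finset.disjoint_left]
      intro y hy hy2
      have h3 := card_le_card (Dn_mono h (mem_Dn.mp hy2))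
      have := (mem_wU.mp hy).2
      omega
    have hd2 : Disjoint (wU P B (Dn P v).card ∪ Dn P v) {u, v} := by
      rw [Finset.disjoint_left]
      intro y hy hy2
      rw [mem_insert, mem_singleton] at hy2
      rcases mem_union.mp hy with h3 | h3
      · have := (mem_wU.mp h3).2
        rcases hy2 with rfl | rfl <;> omega
      · rcases hy2 with rfl | rfl
        · exact h1 (mem_Dn.mp h3)
        · exact h.irr _ (mem_Dn.mp h3)
    have h5 := key _ {u, v} hd1 hd2 (by
      intro y hy
      rw [mem_insert, mem_singleton] at hy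
      rcases hy with rfl | rfl
      · exact huA
      · exact hAB _ hv)
    rw [card_pair huv] at h5
    exact unit_ext h hY (Dn P v).card (by omega) (by omega)
  · have hpos : 1 ≤ (Dn P v).card := by omega
    have hd1 : Disjoint (wU P B ((Dn P v).card - 1)) (Dn P v) := by
      rw [Finset.disjoint_left]
      intro y hy hy2
      have h3 : Dn P y ⊂ Dn P v :=
        ⟨Dn_mono h (mem_Dn.mp hy2), fun h4 => h.irr y (mem_Dn.mp (h4 hy2))⟩
      have h4 := card_lt_card h3
      have := (mem_wU.mp hy).2
      omega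
    have hd2 : Disjoint (wU P B ((Dn P v).card - 1) ∪ Dn P v) {u} := by
      rw [Finset.disjoint_left]
      intro y hy hy2
      rw [mem_singleton] at hy2
      subst hy2
      rcases mem_union.mp hy with h3 | h3
      · have := (mem_wU.mp h3).2
        omega
      · exact h1 (mem_Dn.mp h3)
    have h5 := key _ {u} hd1 hd2 (by
      intro y hy
      rw [mem_singleton] at hy
      rw [hy]
      exact huA)
    rw [card_singleton] at h5
    exact unit_ext h hY ((Dn P v).card - 1) (by omega) (by omega)

/-- Exact extension of final positions. -/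
theorem fnl_unit {b : ℕ} (h : Fnl b P) (hP : undirected P ≠ ∅) :
    ∃ P' : Position n, P ⊆ P' ∧ P'.card = P.card + 1 ∧ Fnl b P' := by
  obtain ⟨A, B, kU, kD, hst, hall, hA, hB⟩ := h
  obtain ⟨u, v, huv, h1, h2⟩ := exists_edge hP
  rcases hst.cases h1 h2 with ⟨hu, hv⟩ | ⟨hu, hv⟩
  · obtain ⟨P', hP', hc, hst'⟩ := unit_all (hst.resetU hall) hall huv hu hv h1 h2
    exact ⟨P', hP', hc, A, B, _, _, hst', hall, hA, hB⟩
  · obtain ⟨Q, hQ, hc, hst'⟩ := unit_all (P := rev P) (hst.resetD hall).rev
      (fun x => (hall x).symm) huv hu hv (fun h3 => h2 (mem_rev.mp h3))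
      (fun h3 => h1 (mem_rev.mp h3))
    refine ⟨rev Q, ?_, ?_, A, B, _, _, hst'.rev, hall, hA, hB⟩
    · have := rev_mono hQ
      rwa [rev_rev] at this
    · rw [card_rev, hc, card_rev]

theorem fnl_burn {b : ℕ} : ∀ (d : ℕ) (P : Position n), Fnl b P →
    ∃ P' : Position n, P ⊆ P' ∧ P'.card ≤ P.card + d ∧ Fnl b P' ∧
      (P'.card = P.card + d ∨ undirected P' = ∅) := by
  intro d
  induction d with
  | zero => intro P h; exact ⟨P, Subset.refl _, le_rfl, h, Or.inl rfl⟩
  | succ d ih =>
    intro P h
    by_cases hP : undirected P = ∅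
    · exact ⟨P, Subset.refl _, by omega, h, Or.inr hP⟩
    · obtain ⟨P₁, hP₁, hc₁, h₁⟩ := fnl_unit h hP
      obtain ⟨P₂, hP₂, hc₂, h₂, h₃⟩ := ih P₁ h₁
      refine ⟨P₂, hP₁.trans hP₂, by omega, h₂, ?_⟩
      rcases h₃ with h₃ | h₃
      · exact Or.inl (by omega)
      · exact Or.inr h₃

end Pool.Agent.Helper16_OCG
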