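import Pool.Agent.Helper51_OCG.Core

/-!
# Chains in the positions which the second player survives (MP_64dd91_co)
-/

set_option autoImplicit false

namespace Pool.Agent.Helper16_OCG

open Finset Pool.Agent.Helper51_OCG

variable {V : Type*} [Fintype V] [DecidableEq V]

/-- `C` is a chain with bottom `x` and top `y` -/
structure Ch (P : Finset (V × V)) (C : Finset V) (x y : V) : Prop where
  xC : x ∈ C
  yC : y ∈ C
  chain : ∀ a ∈ C, ∀ c ∈ C, a ≠ c → (a, c) ∈ P ∨ (c, a) ∈ P
  bot : ∀ c ∈ C, c ≠ x → (x, c) ∈ P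
  top : ∀ c ∈ C, c ≠ y → (c, y) ∈ P

theorem Ch.dual {P : Finset (V × V)} {C : Finset V} {x y : V} (h : Ch P C x y) :
    Ch (P.image Prod.swap) C y x where
  xC := h.yC
  yC := h.xC
  chain := by
    intro a ha c hc hac
    rw [mem_image_swap, mem_image_swap]
    exact (h.chain a ha c hc hac).symm
  bot := fun c hc hcy => mem_image_swap.mpr (h.top c hc hcy)
  top := fun c hc hcx => mem_image_swap.mpr (h.bot c hc hcx)

theorem Ch.mono {P Q : Finset (V × V)} {C : Finset V} {x y : V} (h : Ch P C x y) (hPQ : P ⊆ Q) :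
    Ch Q C x y where
  xC := h.xC
  yC := h.yC
  chain := fun a ha c hc hac => (h.chain a ha c hc hac).imp (fun h => hPQ h) fun h => hPQ h
  bot := fun c hc hcx => hPQ (h.bot c hc hcx)
  top := fun c hc hcy => hPQ (h.top c hc hcy)

/-- add a new bottom -/
theorem Ch.addBot {b : ℕ} {B : Set (Finset (V × V))} (hB : Alive b B) {P : Finset (V × V)}
    (hP : P ∈ B) {C : Finset V} {x y z : V} (h : Ch P C x y) (hz : (z, x) ∈ P) :
    z ∉ C ∧ Ch P (insert z C) z y := by
  have hzc : ∀ c ∈ C, (z, c) ∈ P := by
    intro c hc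
    by_cases hcx : c = x
    · rw [hcx]; exact hz
    · exact hB.trans P hP _ _ _ hz (h.bot c hc hcx)
  have hzC : z ∉ C := fun hc => hB.irr P hP z (hzc z hc)
  refine ⟨hzC, mem_insert_self _ _, mem_insert_of_mem h.yC, ?_, ?_, ?_⟩
  · intro a ha c hc hac
    rw [mem_insert] at ha hc
    rcases ha with rfl | ha
    · rcases hc with rfl | hc
      · exact absurd rfl hac
      · exact Or.inl (hzc c hc)
    · rcases hc with rfl | hc
      · exact Or.inr (hzc a ha)
      · exact h.chain a ha c hc hac
  · intro c hc hcz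
    rw [mem_insert] at hc
    rcases hc with rfl | hc
    · exact absurd rfl hcz
    · exact hzc c hc
  · intro c hc hcy
    rw [mem_insert] at hc
    rcases hc with rfl | hc
    · exact hzc y h.yC
    · exact h.top c hc hcy

/-- replace the bottom by an element below the top -/
theorem Ch.replBot {b : ℕ} {B : Set (Finset (V × V))} (hB : Alive b B) {P : Finset (V × V)}
    (hP : P ∈ B) {C : Finset V} {x y v : V} (h : Ch P C x y) (hv : (v, y) ∈ P) :
    Ch P (insert v (C.filter fun c => c ∈ up P v)) v y := by
  refine ⟨mem_insert_self _ _, ?_, ?_, ?_, ?_⟩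
  · rw [mem_insert, mem_filter]
    exact Or.inr ⟨h.yC, mem_up.mpr hv⟩
  · intro a ha c hc hac
    rw [mem_insert, mem_filter, mem_up] at ha hc
    rcases ha with rfl | ⟨ha, ha'⟩
    · rcases hc with rfl | ⟨hc, hc'⟩
      · exact absurd rfl hac
      · exact Or.inl hc'
    · rcases hc with rfl | ⟨hc, hc'⟩
      · exact Or.inr ha'
      · exact h.chain a ha c hc hac
  · intro c hc hcv
    rw [mem_insert, mem_filter, mem_up] at hc
    rcases hc with rfl | ⟨hc, hc'⟩
    · exact absurd rfl hcv
    · exact hc'
  · intro c hc hcy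
    rw [mem_insert, mem_filter, mem_up] at hc
    rcases hc with rfl | ⟨hc, hc'⟩
    · exact hv
    · exact h.top c hc hcy

/-- the elements of a chain are in the up set of the bottom -/
theorem Ch.card_le_up {P : Finset (V × V)} {C : Finset V} {x y : V} (h : Ch P C x y) :
    C.card ≤ (up P x).card + 1 := by
  have h1 : C ⊆ insert x (up P x) := by
    intro c hc
    rw [mem_insert, mem_up]
    by_cases hcx : c = x
    · exact Or.inl hcx
    · exact Or.inr (h.bot c hc hcx)
  exact (card_le_card h1).trans (card_insert_le _ _)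

/-- the number of relations in a chain -/
theorem chain_pairs {P : Finset (V × V)} {K : Finset V}
    (h : ∀ a ∈ K, ∀ c ∈ K, a ≠ c → (a, c) ∈ P ∨ (c, a) ∈ P) :
    K.card * K.card - K.card ≤ 2 * (P.filter fun e => e.1 ∈ K ∧ e.2 ∈ K).card := by
  have h1 : K.offDiag ⊆ (P.filter fun e => e.1 ∈ K ∧ e.2 ∈ K) ∪
      (P.filter fun e => e.1 ∈ K ∧ e.2 ∈ K).image Prod.swap := by
    rintro ⟨a, c⟩ hac
    rw [mem_offDiag] at hac
    obtain ⟨ha, hc, hne⟩ := hac
    simp only at ha hc hne
    rw [mem_union, mem_image_swap, mem_filter, mem_filter]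
    rcases h a ha c hc hne with h2 | h2
    · exact Or.inl ⟨h2, ha, hc⟩
    · exact Or.inr ⟨h2, hc, ha⟩
  have h2 := (card_le_card h1).trans (card_union_le _ _)
  rw [card_image_swap, offDiag_card] at h2
  omega

/-- Lemma A with a chain. -/
theorem lemmaA_chain {b : ℕ} {B : Set (Finset (V × V))} (hB : Alive b B)
    {P : Finset (V × V)} (hP : P ∈ B) (v : V) (K : Finset V)
    (hK : ∀ a ∈ K, ∀ c ∈ K, a ≠ c → (a, c) ∈ P ∨ (c, a) ∈ P) (hKv : K ⊆ down P v) :
    ((Fintype.card V : ℝ) - (b + 3 / 2)) ^ 2 - 2 * P.card + K.card * (K.card - 1)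
      ≤ (((down P v).card : ℝ) + 1 - (b + 3 / 2)) ^ 2 := by
  have h1 := lemmaA hB _ P hP v rfl
  have h2 : ∑ z ∈ univ \ insert v (down P v), ((down P z).card : ℤ) + ∑ z ∈ K,
      ((down P z).card : ℤ) ≤ P.card := by
    rw [card_eq_sum_down P]
    push_cast
    rw [← sum_union]
    · exact Finset.sum_le_sum_of_subset_of_nonneg (subset_univ _) fun z _ _ => by positivity
    · rw [Finset.disjoint_left]
      intro z hz hz'
      rw [mem_sdiff, mem_insert, not_or] at hz
      exact hz.2.2 (hKv hz')
  have h3 : (P.filter fun e => e.1 ∈ K ∧ e.2 ∈ K).card ≤ ∑ z ∈ K, (down P z).card := by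
    rw [Finset.card_eq_sum_card_fiberwise (f := Prod.snd) (t := K)]
    · refine Finset.sum_le_sum fun z _ => ?_
      have h4 : ((P.filter fun e => e.1 ∈ K ∧ e.2 ∈ K).filter fun e => e.2 = z) ⊆
          (down P z).image fun w => (w, z) := by
        rintro ⟨a, c⟩ h
        rw [mem_filter, mem_filter] at h
        obtain ⟨⟨h5, -⟩, h6⟩ := h
        simp only at h6
        subst h6
        exact mem_image.mpr ⟨a, mem_down.mpr h5, rfl⟩
      exact (card_le_card h4).trans card_image_le
    · intro e he
      have he' := mem_filter.mp (Finset.mem_coe.mp he)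
      exact Finset.mem_coe.mpr he'.2.2
  have h4 := chain_pairs hK
  have h5 : K.card * K.card ≤ 2 * ∑ z ∈ K, (down P z).card + K.card := by omega
  have h6 : (K.card : ℤ) * K.card ≤ 2 * ∑ z ∈ K, ((down P z).card : ℤ) + K.card := by
    exact_mod_cast h5
  have h7 : (Fintype.card V : ℤ) * (Fintype.card V - 1)
        - ((down P v).card + 1) * (down P v).card
        - 2 * (b + 1) * (Fintype.card V - ((down P v).card + 1)) + K.card * (K.card - 1)
        ≤ 2 * P.card := by linarith
  have h8 : (Fintype.card V : ℝ) * (Fintype.card V - 1)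
        - ((down P v).card + 1) * (down P v).card
        - 2 * (b + 1) * (Fintype.card V - ((down P v).card + 1)) + K.card * (K.card - 1)
        ≤ 2 * P.card := by
    exact_mod_cast h7
  nlinarith [h8]

/-- the sum of the defects of nestedness -/
theorem nest_sum {b : ℕ} {B : Set (Finset (V × V))} (hB : Alive b B)
    {P : Finset (V × V)} (hP : P ∈ B) (v : V) (hv : ∀ w, (down P w).card ≤ (down P v).card) :
    ((∑ w, (down P w \ down P v).card : ℕ) : ℝ) ≤ Fintype.card V * Real.sqrt (b + 1) := by
  have h1 := nest hB hP v hv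
  have h5 : ((∑ w, (down P w \ down P v).card : ℕ) : ℝ) ^ 2
      ≤ (Fintype.card V) ^ 2 * (b + 1) := by
    have h6 : (∑ w, (down P w \ down P v).card) ^ 2 ≤
        Fintype.card V * ∑ w, ((down P w \ down P v).card) ^ 2 := by
      have := sq_sum_le_card_mul_sum_sq (s := (univ : Finset V))
        (f := fun w => (down P w \ down P v).card)
      rwa [card_univ] at this
    have h7 : (∑ w, (down P w \ down P v).card) ^ 2 ≤
        Fintype.card V * (Fintype.card V * (b + 1)) := h6.trans (Nat.mul_le_mul_left _ h1)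
    have h8 : (((∑ w, (down P w \ down P v).card) ^ 2 : ℕ) : ℝ) ≤
        ((Fintype.card V * (Fintype.card V * (b + 1)) : ℕ) : ℝ) := by exact_mod_cast h7
    push_cast at h8 ⊢
    linarith
  have h9 : (Fintype.card V : ℝ) ^ 2 * (b + 1) = (Fintype.card V * Real.sqrt (b + 1)) ^ 2 := by
    rw [mul_pow, Real.sq_sqrt (by positivity)]
  rw [h9] at h5
  exact le_of_sq_le_sq h5 (by positivity)

/-- few elements with a large up set are outside of the largest down set -/
theorem few_outside {b : ℕ} {B : Set (Finset (V × V))} (hB : Alive b B)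
    {P : Finset (V × V)} (hP : P ∈ B) (v : V) (hv : ∀ w, (down P w).card ≤ (down P v).card)
    (m : ℕ) (X : Finset V) (hX : ∀ c ∈ X, c ∉ down P v ∧ m ≤ (up P c).card) :
    ((X.card * m : ℕ) : ℝ) ≤ Fintype.card V * Real.sqrt (b + 1) := by
  refine le_trans ?_ (nest_sum hB hP v hv)
  have h1 : X.card * m ≤ ∑ w, (down P w \ down P v).card := by
    have h2 : ∀ w, (down P w \ down P v).card ≥ (down P w ∩ X).card := by
      intro w
      apply card_le_card
      intro c hc
      rw [mem_inter] at hc
      rw [mem_sdiff]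
      exact ⟨hc.1, (hX c hc.2).1⟩
    calc X.card * m = ∑ _c ∈ X, m := by rw [sum_const, smul_eq_mul]
      _ ≤ ∑ c ∈ X, (up P c).card := Finset.sum_le_sum fun c hc => (hX c hc).2
      _ = ∑ w, (down P w ∩ X).card := (sum_card_inter P X).symm
      _ ≤ ∑ w, (down P w \ down P v).card := Finset.sum_le_sum fun w _ => h2 w
  exact_mod_cast h1

/-- almost all elements of a chain are in the largest down set -/
theorem chain_outside {b : ℕ} {B : Set (Finset (V × V))} (hB : Alive b B)
    {P : Finset (V × V)} (hP : P ∈ B) (v : V) (hv : ∀ w, (down P w).card ≤ (down P v).card)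
    (m L : ℕ) (hm : (Fintype.card V : ℝ) * Real.sqrt (b + 1) < ((L + 1) * m : ℕ))
    (K : Finset V) (hK : ∀ a ∈ K, ∀ c ∈ K, a ≠ c → (a, c) ∈ P ∨ (c, a) ∈ P) :
    (K.filter fun c => c ∉ down P v).card ≤ L + m := by
  set X1 := K.filter fun c => c ∉ down P v ∧ m ≤ (up P c).card with hX1
  set X2 := K.filter fun c => (up P c).card < m with hX2
  have h1 : (K.filter fun c => c ∉ down P v) ⊆ X1 ∪ X2 := by
    intro c hc
    rw [mem_filter] at hc
    rw [mem_union, hX1, hX2, mem_filter, mem_filter]
    by_cases h : m ≤ (up P c).card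
    · exact Or.inl ⟨hc.1, hc.2, h⟩
    · exact Or.inr ⟨hc.1, not_le.mp h⟩
  have h2 : X1.card ≤ L := by
    by_contra h
    push Not at h
    have h3 := few_outside hB hP v hv m X1 fun c hc => (mem_filter.mp hc).2
    have h4 : (((L + 1) * m : ℕ) : ℝ) ≤ ((X1.card * m : ℕ) : ℝ) := by
      exact_mod_cast Nat.mul_le_mul_right m h
    linarith
  have h3 : X2.card ≤ m := by
    rcases X2.eq_empty_or_nonempty with h0 | h0
    · rw [h0, card_empty]; exact Nat.zero_le _
    · -- the lowest element
      obtain ⟨c, hc, hmin⟩ := exists_min_image X2 (fun c => (down P c).card) h0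
      have hsub : X2 ⊆ insert c (up P c) := by
        intro d hd
        rw [mem_insert, mem_up]
        by_cases hdc : d = c
        · exact Or.inl hdc
        right
        rcases hK d (mem_filter.mp hd).1 c (mem_filter.mp hc).1 hdc with h4 | h4
        · exfalso
          have h5 : down P d ⊂ down P c := by
            rw [Finset.ssubset_iff_of_subset]
            · exact ⟨d, by simpa using h4, by simpa using hB.irr P hP d⟩
            · intro t ht
              simp only [mem_down] at ht ⊢
              exact hB.trans P hP _ _ _ ht h4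
          have h6 := card_lt_card h5
          have h7 := hmin d hd
          omega
        · exact h4
      have h4 := (card_le_card hsub).trans (card_insert_le _ _)
      have h5 := (mem_filter.mp hc).2
      omega
  exact (card_le_card h1).trans ((card_union_le _ _).trans (Nat.add_le_add h2 h3))

end Pool.Agent.Helper16_OCG
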