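import Pool.Agent.Helper16_OCG.Main
import Pool.Agent.Helper51_OCG.Game

/-!
# The parameters (MP_64dd91_co)
-/

set_option autoImplicit false

namespace Pool.Agent.Helper16_OCG

open Finset Pool.Agent.Helper51_OCG

/-- the choice of the parameters -/
theorem params {ε : ℝ} (hε : 0 < ε) (hε1 : ε ≤ 1) :
    ∃ n₀ : ℕ, ∀ n ≥ n₀, ∀ b : ℕ, 1 ≤ b → (b : ℝ) ≤ (2 - Real.sqrt 2 - ε) * n →
      1 < n ∧ b ≤ n ∧ ∃ m L E K R₀ : ℕ, ∃ e : ℝ,
        (n : ℝ) * Real.sqrt (b + 1) < ((L + 1) * m : ℕ) ∧ m ≤ E ∧ 1 ≤ E ∧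
        2 * (b + 2 * E + 1) ≤ K * E ∧ (L + m) * (K + 1) ≤ R₀ ∧ (2 * E + 1 : ℝ) ≤ e ∧
        (((L + m) * (K + 1) + L + 1 : ℕ) : ℝ) ≤ e ∧
        40 * e * (n : ℝ) ≤ (b : ℝ) ^ 2 - 4 * b * (n : ℝ) + 2 * (n : ℝ) ^ 2 ∧
        (((b : ℝ) + 2) / 2) ^ 2 ≤ ((n : ℝ) - (b + 3 / 2)) ^ 2 - 2 * (R₀ * (b + 1)) := by
  have h2 : Real.sqrt 2 ^ 2 = 2 := Real.sq_sqrt (by norm_num)
  have hs0 : 0 ≤ Real.sqrt 2 := Real.sqrt_nonneg _
  have hs1 : 1.41 < Real.sqrt 2 := by nlinarith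
  obtain ⟨δ, hδ⟩ : ∃ δ : ℝ, δ = ε ^ 2 / 60000 := ⟨_, rfl⟩
  have hδ0 : 0 < δ := by rw [hδ]; positivity
  obtain ⟨A, hA⟩ : ∃ A : ℝ, A = 2 / δ * (607 / ε) := ⟨_, rfl⟩
  have hA0 : 0 < A := by rw [hA]; positivity
  obtain ⟨n₀, hn₀⟩ := exists_nat_ge (200 + 400 / ε + 2 / δ + 160 * (607 / ε + 1) / ε +
    (160 * A / ε) ^ 2)
  refine ⟨n₀, fun n hn b hb hbn => ?_⟩
  have hnR : 200 + 400 / ε + 2 / δ + 160 * (607 / ε + 1) / ε + (160 * A / ε) ^ 2 ≤ (n : ℝ) :=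
    hn₀.trans (by exact_mod_cast hn)
  have p1 : 0 < 400 / ε := by positivity
  have p2 : 0 < 2 / δ := by positivity
  have p3 : 0 < 160 * (607 / ε + 1) / ε := by positivity
  have p4 : 0 < (160 * A / ε) ^ 2 := by positivity
  have hn200 : (200 : ℝ) ≤ n := by linarith
  have hn0 : (0 : ℝ) < n := by linarith
  have hn1 : 1 < n := by
    have : (1 : ℝ) < n := by linarith
    exact_mod_cast this
  have hb59 : (b : ℝ) ≤ 0.59 * n - ε * n := by
    have h3 : (2 - Real.sqrt 2 - ε) * n ≤ (0.59 - ε) * n :=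
      mul_le_mul_of_nonneg_right (by linarith) hn0.le
    linarith
  have hεn0 : 0 < ε * n := by positivity
  have hb1 : (1 : ℝ) ≤ b := by exact_mod_cast hb
  have hbnR : (b : ℝ) + 1 ≤ n := by linarith
  have hbn' : b ≤ n := by
    have : (b : ℝ) ≤ n := by linarith
    exact_mod_cast this
  have hεn : 400 ≤ ε * n := by
    have h3 : ε * (400 / ε) ≤ ε * n := mul_le_mul_of_nonneg_left (by linarith) hε.le
    have h4 : ε * (400 / ε) = 400 := by field_simp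
    linarith
  have hδn : 2 ≤ δ * n := by
    have h3 : δ * (2 / δ) ≤ δ * n := mul_le_mul_of_nonneg_left (by linarith) hδ0.le
    have h4 : δ * (2 / δ) = 2 := by field_simp
    linarith
  have hBn : 607 / ε + 1 ≤ ε * n / 160 := by
    have h3 : ε * (160 * (607 / ε + 1) / ε) ≤ ε * n :=
      mul_le_mul_of_nonneg_left (by linarith) hε.le
    have h4 : ε * (160 * (607 / ε + 1) / ε) = 160 * (607 / ε + 1) := by field_simp
    linarith
  have hsq : Real.sqrt n ^ 2 = n := Real.sq_sqrt hn0.le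
  have hsn : 0 < Real.sqrt n := Real.sqrt_pos.mpr hn0
  have hAn : A * Real.sqrt n ≤ ε * n / 160 := by
    have h3 : 160 * A / ε ≤ Real.sqrt n := by
      apply Real.le_sqrt_of_sq_le
      linarith
    have h4 : ε * (160 * A / ε) ≤ ε * Real.sqrt n := mul_le_mul_of_nonneg_left h3 hε.le
    have h5 : ε * (160 * A / ε) = 160 * A := by field_simp
    have h6 : 160 * A * Real.sqrt n ≤ ε * Real.sqrt n * Real.sqrt n := by
      rw [← h5]
      exact mul_le_mul_of_nonneg_right h4 hsn.le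
    have h7 : ε * Real.sqrt n * Real.sqrt n = ε * n := by rw [mul_assoc, ← sq, hsq]
    linarith
  refine ⟨hn1, hbn', ⌊δ * n⌋₊, ⌈2 * Real.sqrt n / δ⌉₊, ⌊ε * n / 100⌋₊, ⌈600 / ε⌉₊ + 4,
    (⌈2 * Real.sqrt n / δ⌉₊ + ⌊δ * n⌋₊) * (⌈600 / ε⌉₊ + 4 + 1), ε * n / 40, ?_⟩
  obtain ⟨m, hm⟩ : ∃ m, m = ⌊δ * n⌋₊ := ⟨_, rfl⟩
  obtain ⟨L, hL⟩ : ∃ L, L = ⌈2 * Real.sqrt n / δ⌉₊ := ⟨_, rfl⟩
  obtain ⟨E, hE⟩ : ∃ E, E = ⌊ε * n / 100⌋₊ := ⟨_, rfl⟩
  obtain ⟨K, hK⟩ : ∃ K, K = ⌈600 / ε⌉₊ := ⟨_, rfl⟩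
  rw [← hm, ← hL, ← hE, ← hK]
  have hm1 : (m : ℝ) ≤ δ * n := by rw [hm]; exact Nat.floor_le (by positivity)
  have hm2 : δ * n < m + 1 := by rw [hm]; exact Nat.lt_floor_add_one _
  have hm3 : δ * n / 2 ≤ m := by linarith
  have hE1 : (E : ℝ) ≤ ε * n / 100 := by rw [hE]; exact Nat.floor_le (by positivity)
  have hE2 : ε * n / 100 < E + 1 := by rw [hE]; exact Nat.lt_floor_add_one _
  have hE3 : ε * n / 200 ≤ E := by linarith
  have hL1 : 2 * Real.sqrt n / δ ≤ L := by rw [hL]; exact Nat.le_ceil _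
  have hL2 : (L : ℝ) < 2 * Real.sqrt n / δ + 1 := by
    rw [hL]; exact Nat.ceil_lt_add_one (by positivity)
  have hK1 : 600 / ε ≤ K := by rw [hK]; exact Nat.le_ceil _
  have hK2 : (K : ℝ) < 600 / ε + 1 := by rw [hK]; exact Nat.ceil_lt_add_one (by positivity)
  have h1ε : 1 ≤ 1 / ε := by
    rw [le_div_iff₀ hε]
    linarith
  have h6ε : 600 / ε = 600 * (1 / ε) := by ring
  have h7ε : 607 / ε = 607 * (1 / ε) := by ring
  have hK3 : (K : ℝ) + 4 + 2 ≤ 607 / ε := by rw [h7ε]; rw [h6ε] at hK2; linarith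
  have hmE : (m : ℝ) ≤ ε * n / 200 := by
    have h3 : δ * n ≤ ε / 200 * n := by
      apply mul_le_mul_of_nonneg_right _ hn0.le
      rw [hδ]
      nlinarith
    linarith
  have hmK : (m : ℝ) * (K + 4 + 1) ≤ ε * n / 80 := by
    have h3 : (m : ℝ) * (K + 4 + 1) ≤ (δ * n) * (607 / ε) :=
      mul_le_mul hm1 (by linarith) (by positivity) (by positivity)
    have h4 : (δ * n) * (607 / ε) = 607 / 60000 * (ε * n) := by
      rw [hδ]
      field_simp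
    linarith
  have hLK : (L : ℝ) * (K + 4 + 2) + 1 ≤ ε * n / 80 := by
    have h3 : (L : ℝ) * (K + 4 + 2) ≤ (2 * Real.sqrt n / δ + 1) * (607 / ε) :=
      mul_le_mul hL2.le hK3 (by positivity) (by positivity)
    have h4 : (2 * Real.sqrt n / δ + 1) * (607 / ε) = A * Real.sqrt n + 607 / ε := by
      rw [hA]
      field_simp
    linarith
  have hbig : (((L + m) * (K + 4 + 1) + L + 1 : ℕ) : ℝ) ≤ ε * n / 40 := by
    push_cast
    have h3 : ((L : ℝ) + m) * (K + 4 + 1) + L + 1 = (L * (K + 4 + 2) + 1) + m * (K + 4 + 1) := by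
      ring
    rw [h3]
    linarith
  have hR : (((L + m) * (K + 4 + 1) : ℕ) : ℝ) ≤ ε * n / 40 := by
    refine le_trans ?_ hbig
    exact_mod_cast (by omega : (L + m) * (K + 4 + 1) ≤ (L + m) * (K + 4 + 1) + L + 1)
  refine ⟨?_, ?_, ?_, ?_, le_rfl, ?_, hbig, ?_, ?_⟩
  · have h3 : Real.sqrt (b + 1) ≤ Real.sqrt n := Real.sqrt_le_sqrt hbnR
    have h4 : (n : ℝ) * Real.sqrt (b + 1) ≤ n * Real.sqrt n :=
      mul_le_mul_of_nonneg_left h3 hn0.le
    have h5 : (2 * Real.sqrt n / δ) * (δ * n / 2) ≤ (L : ℝ) * m :=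
      mul_le_mul hL1 hm3 (by positivity) (by positivity)
    have h6 : (2 * Real.sqrt n / δ) * (δ * n / 2) = n * Real.sqrt n := by field_simp
    push_cast
    have h7 : (0 : ℝ) < m := by linarith
    linarith
  · have : (m : ℝ) ≤ E := by linarith
    exact_mod_cast this
  · have : (1 : ℝ) ≤ E := by linarith
    exact_mod_cast this
  · have h3 : (600 / ε) * (ε * n / 200) ≤ (K : ℝ) * E :=
      mul_le_mul hK1 hE3 (by positivity) (by positivity)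
    have h4 : (600 / ε) * (ε * n / 200) = 3 * n := by field_simp; norm_num
    have h5 : (2 : ℝ) * (b + 2 * E + 1) ≤ (K + 4) * E := by linarith
    exact_mod_cast h5
  · linarith
  · have h3 : (Real.sqrt 2 + ε) * n ≤ 2 * n - b := by linarith
    have h4 : ((Real.sqrt 2 + ε) * n) ^ 2 ≤ (2 * n - b) ^ 2 :=
      pow_le_pow_left₀ (by positivity) h3 2
    have h5 : ((Real.sqrt 2 + ε) * n) ^ 2 = (2 + 2 * Real.sqrt 2 * ε + ε ^ 2) * n ^ 2 := by
      calc ((Real.sqrt 2 + ε) * n) ^ 2 = (Real.sqrt 2 ^ 2 + 2 * Real.sqrt 2 * ε + ε ^ 2) * n ^ 2 :=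
            by ring
        _ = _ := by rw [h2]
    have h6 : (2 + ε) * (n : ℝ) ^ 2 ≤ (2 + 2 * Real.sqrt 2 * ε + ε ^ 2) * n ^ 2 := by
      apply mul_le_mul_of_nonneg_right _ (by positivity)
      nlinarith
    linarith
  · have h3 : (((b : ℝ) + 2) / 2) ^ 2 ≤ (0.31 * n) ^ 2 :=
      pow_le_pow_left₀ (by positivity) (by linarith) 2
    have h4 : (0.4 * n + ε * n) ^ 2 ≤ ((n : ℝ) - (b + 3 / 2)) ^ 2 :=
      pow_le_pow_left₀ (by positivity) (by linarith) 2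
    have h5 : (((L + m) * (K + 4 + 1) : ℕ) : ℝ) * (b + 1) ≤ (ε * n / 40) * n :=
      mul_le_mul hR hbnR (by positivity) (by positivity)
    have h6 : (0.4 * n + ε * n) ^ 2 = 0.16 * n ^ 2 + 0.8 * (ε * n * n) + (ε * n) ^ 2 := by ring
    have h7 : 0 < ε * n * n := by positivity
    nlinarith [sq_nonneg (ε * n)]

/-- For every `ε > 0` and all large `n`, OMaker wins the `b`-biased oriented-cycle game on `K_n`
under the monotone rules and under the strict rules, whenever `1 ≤ b ≤ (2 - √2 - ε) n`. -/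
theorem maker (ε : ℝ) (hε : 0 < ε) :
    ∃ n₀ : ℕ, ∀ n ≥ n₀, ∀ b : ℕ, 1 ≤ b → (b : ℝ) ≤ (2 - Real.sqrt 2 - ε) * n →
      OMakerWins (monotoneRule b) (∅ : Position n) ∧
      OMakerWins (strictRule b) (∅ : Position n) := by
  obtain ⟨n₀, hn₀⟩ := params (lt_min hε one_pos) (min_le_right ε 1)
  refine ⟨n₀, fun n hn b hb hbn => ?_⟩
  have hbn' : (b : ℝ) ≤ (2 - Real.sqrt 2 - min ε 1) * n := by
    refine hbn.trans (mul_le_mul_of_nonneg_right ?_ (by positivity))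
    have := min_le_left ε 1
    linarith
  obtain ⟨hn1, hbn2, m, L, E, K, R₀, e, h1, h2, h3, h4, h5, h6, h7, h8, h9⟩ :=
    hn₀ n hn b hb hbn'
  have key : ∀ rule : ℕ → ℕ → Prop, (∀ r s, rule r s → s ≤ b) →
      OMakerWins rule (∅ : Position n) := by
    intro rule hrule
    by_contra hno
    refine no_alive2 (lost_alive hrule hno) (m := m) (L := L) (E := E) (K := K) (R₀ := R₀)
      (e := e) ?_ h2 h3 h4 h5 h6 h7 ?_ hb ?_ ?_ ?_
    · rw [Fintype.card_fin]; exact h1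
    · rw [Fintype.card_fin]; exact hn1
    · rw [Fintype.card_fin]; exact hbn2
    · rw [Fintype.card_fin]; exact h8
    · rw [Fintype.card_fin]; exact h9
  exact ⟨key _ fun r s h => h.2, key _ fun r s h => by rw [h]; exact min_le_left _ _⟩

end Pool.Agent.Helper16_OCG
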