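import Pool.Agent.Helper16_OCG.Step

/-!
# OMaker wins the biased oriented-cycle game up to `(2 - √2 - o(1)) n` (MP_64dd91_co)
-/

set_option autoImplicit false
set_option linter.unusedSectionVars false

namespace Pool.Agent.Helper16_OCG

open Finset Pool.Agent.Helper51_OCG

variable {V : Type*} [Fintype V] [DecidableEq V]

/-- Lemma A with a chain, dual form. -/
theorem lemmaA_chain_up {b : ℕ} {B : Set (Finset (V × V))} (hB : Alive b B)
    {P : Finset (V × V)} (hP : P ∈ B) (v : V) (K : Finset V)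
    (hK : ∀ a ∈ K, ∀ c ∈ K, a ≠ c → (a, c) ∈ P ∨ (c, a) ∈ P) (hKv : K ⊆ up P v) :
    ((Fintype.card V : ℝ) - (b + 3 / 2)) ^ 2 - 2 * P.card + K.card * (K.card - 1)
      ≤ (((up P v).card : ℝ) + 1 - (b + 3 / 2)) ^ 2 := by
  have h := lemmaA_chain hB.dual (P := P.image Prod.swap)
    (by show (P.image Prod.swap).image Prod.swap ∈ B; rw [image_swap_swap]; exact hP) v K
    (by
      intro a ha c hc hac
      rw [mem_image_swap, mem_image_swap]
      exact (hK a ha c hc hac).symm)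
    (by rw [down_image_swap]; exact hKv)
  rwa [down_image_swap, card_image_swap] at h

/-- the numeric inequality of the main phase -/
theorem numZ {n b R e MU MD : ℝ} (hn0 : 0 < n) (he : 1 ≤ e) (hb0 : 0 ≤ b) (hbn : b ≤ n) (hR0 : 0 ≤ R)
    (hs : 40 * e * n ≤ b ^ 2 - 4 * b * n + 2 * n ^ 2) (hMU : MU ≤ b + e) (hMD : MD ≤ b + e)
    (hU : (n - (b + 3 / 2)) ^ 2 - 2 * (R * (b + 1)) + (R ^ 2 - 2 * e * R) ≤
      (MU + 1 - (b + 3 / 2)) ^ 2)
    (hD : (n - (b + 3 / 2)) ^ 2 - 2 * (R * (b + 1)) + (R ^ 2 - 2 * e * R) ≤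
      (MD + 1 - (b + 3 / 2)) ^ 2) :
    MU + MD + 2 * e < n + R := by
  by_contra hcon
  push Not at hcon
  have hRb : R ≤ 2 * b - n + 4 * e := by linarith
  have hb6 : b ≤ 0.6 * n := by
    by_contra h
    push Not at h
    have h1 : 0 ≤ e * n := by positivity
    nlinarith
  have hen : 20 * e ≤ n := by
    have h1 : 40 * e * n ≤ 2 * n ^ 2 := by nlinarith
    have h2 : 40 * e * n ≤ (2 * n) * n := by linarith
    have h3 := le_of_mul_le_mul_right h2 hn0
    linarith
  have hR4 : R ≤ 0.4 * n := by linarith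
  have hen2 : e ≤ e * n := by nlinarith
  have hnen : n ≤ e * n := by nlinarith
  have hee : e ^ 2 ≤ e * n / 20 := by nlinarith
  -- rho
  obtain ⟨ρ, hρ⟩ : ∃ ρ : ℝ, ρ = (n - (b + 3 / 2)) ^ 2 - 2 * (R * (b + 1)) + (R ^ 2 - 2 * e * R) :=
    ⟨_, rfl⟩
  rw [← hρ] at hU hD
  have hRe : e * R ≤ 0.4 * (e * n) := by nlinarith
  have hbe : 0 ≤ e * b := by positivity
  have h1 : e ^ 2 < ρ := by
    have h2 : 0 ≤ (2 * b - n + 4 * e - R) * (2 * b - R - (2 * b - n + 4 * e)) := by
      apply mul_nonneg <;> linarith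
    rw [hρ]
    nlinarith
  have haux : ∀ M : ℝ, M ≤ b + e → ρ ≤ (M + 1 - (b + 3 / 2)) ^ 2 → 0 < b + 1 / 2 - M := by
    intro M hM hρM
    by_contra hneg
    push Not at hneg
    have h3 : (M + 1 - (b + 3 / 2)) ^ 2 < e ^ 2 := by
      apply sq_lt_sq'
      · linarith
      · linarith
    linarith
  have haU := haux MU hMU hU
  have haD := haux MD hMD hD
  have h4 : 4 * ρ ≤ (2 * b + 1 - (MU + MD)) ^ 2 := by
    rcases le_total MU MD with h5 | h5
    · nlinarith [mul_nonneg haD.le (sub_nonneg.mpr h5)]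
    · nlinarith [mul_nonneg haU.le (sub_nonneg.mpr h5)]
  have h5 : (2 * b + 1 - (MU + MD)) ^ 2 ≤ (2 * b + 1 - n - R + 2 * e) ^ 2 := by
    apply pow_le_pow_left₀
    · linarith
    · linarith
  have h6 : 4 * ρ ≤ (2 * b + 1 - n - R + 2 * e) ^ 2 := h4.trans h5
  have h7 : 0 < 2 * b + 1 - n - R + 2 * e := by linarith
  -- contradiction
  rw [hρ] at h6
  have h8 : (n - b) * (R - (2 * b - n)) ≤ 4 * (e * n) := by
    have h9 : (n - b) * (R - (2 * b - n)) ≤ (n - b) * (4 * e) :=
      mul_le_mul_of_nonneg_left (by linarith) (by linarith)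
    nlinarith
  have h9 : (1 + 2 * e) * (2 * b - n - R) ≤ 0.6 * (e * n) := by
    have h10 : (1 + 2 * e) * (2 * b - n - R) ≤ (1 + 2 * e) * (0.2 * n) :=
      mul_le_mul_of_nonneg_left (by linarith) (by linarith)
    nlinarith
  nlinarith [sq_nonneg (R - (2 * b - n))]

/-- the number of switches is bounded -/
theorem St.switches {b : ℕ} {B : Set (Finset (V × V))} {M E R sU sD K : ℕ}
    {P : Finset (V × V)} {C : Finset V} {x y : V} (h : St b B M E R sU sD P C x y)
    (hE : 1 ≤ E) (hK : 2 * (b + 2 * E + 1) ≤ K * E) : sU + sD ≤ K := by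
  have h1 := h.pU.trans (h.loU x)
  have h2 := h.pD.trans (h.loD y)
  have h3 : (sU + sD) * E ≤ K * E := by
    rw [Nat.add_mul]
    omega
  exact Nat.le_of_mul_le_mul_right h3 (by omega)

/-- the first phase -/
theorem phaseA {b : ℕ} {B : Set (Finset (V × V))} (hB : Alive b B) (M E R₀ : ℕ)
    (hV : 1 < Fintype.card V) (hb : 1 ≤ b) (hbn : b ≤ Fintype.card V)
    (hA : (((b : ℝ) + 2) / 2) ^ 2 ≤ ((Fintype.card V : ℝ) - (b + 3 / 2)) ^ 2
      - 2 * (R₀ * (b + 1))) :
    ∀ R ≤ R₀, ∃ P C x y, St b B M E R 0 0 P C x y ∧ (∀ w, 2 * (up P w).card + 1 ≤ b) ∧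
      ∀ w, 2 * (down P w).card + 1 ≤ b := by
  intro R
  induction R with
  | zero =>
    intro _
    obtain ⟨x⟩ : Nonempty V := Fintype.card_pos_iff.mp (by omega)
    have hu : ∀ w : V, up (∅ : Finset (V × V)) w = ∅ := by intro w; ext; simp
    have hd : ∀ w : V, down (∅ : Finset (V × V)) w = ∅ := by intro w; ext; simp
    refine ⟨∅, {x}, x, x, ⟨hB.empty, by simp, ⟨by simp, by simp, ?_, ?_, ?_⟩, by simp, by simp,
      by simp, ?_, ?_⟩, ?_, ?_⟩
    · intro a ha c hc hac
      rw [mem_singleton] at ha hc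
      exact absurd (ha.trans hc.symm) hac
    · intro c hc hcx
      rw [mem_singleton] at hc
      exact absurd hc hcx
    · intro c hc hcx
      rw [mem_singleton] at hc
      exact absurd hc hcx
    · intro w
      rw [hu]
      simp
    · intro w
      rw [hd]
      simp
    · intro w
      rw [hu]
      simpa using hb
    · intro w
      rw [hd]
      simpa using hb
  | succ R ih =>
    intro hR
    obtain ⟨P, C0, x0, y, hSt0, hU, hD⟩ := ih (by omega)
    obtain ⟨C, x, hSt, hx0, -⟩ := hSt0.minBot hB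
    have hex : ∃ z, z ≠ x ∧ z ∉ up P x := by
      by_contra hno
      push Not at hno
      have h1 : (univ : Finset V) ⊆ insert x (up P x) := by
        intro z _
        rw [mem_insert]
        by_cases hz : z = x
        · exact Or.inl hz
        · exact Or.inr (hno z hz)
      have h2 := (card_le_card h1).trans (card_insert_le _ _)
      rw [card_univ] at h2
      have h3 := hU x
      omega
    obtain ⟨z, hzx, hzu⟩ := hex
    have h1 : (z, x) ∉ P := by
      intro h1
      have : z ∈ down P x := mem_down.mpr h1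
      rw [hx0] at this
      exact notMem_empty _ this
    have h2 : (x, z) ∉ P := fun h2 => hzu (mem_up.mpr h2)
    obtain ⟨Q, hQ, hPQ, hzxQ, hQc⟩ := hB.ext P hSt.mem z x hzx h1 h2
    obtain ⟨hzC, hch⟩ := (hSt.ch.mono hPQ).addBot hB hQ hzxQ
    have hQcard : Q.card ≤ (R + 1) * (b + 1) := by
      have := hSt.card
      rw [Nat.add_mul, one_mul]
      omega
    have hQR : (Q.card : ℝ) ≤ R₀ * (b + 1) := by
      have h3 : Q.card ≤ R₀ * (b + 1) := hQcard.trans (Nat.mul_le_mul_right _ hR)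
      exact_mod_cast h3
    have key : ∀ k l : ℕ, 2 * l + 1 ≤ b → k + P.card ≤ l + Q.card →
        ((Fintype.card V : ℝ) - (b + 3 / 2)) ^ 2 - 2 * Q.card ≤
          ((k : ℝ) + 1 - (b + 3 / 2)) ^ 2 → 2 * k + 1 ≤ b := by
      intro k l hl hkl hk
      by_contra hno
      have h3 : b ≤ 2 * k := by omega
      have h4 : (b : ℝ) ≤ 2 * k := by exact_mod_cast h3
      have h5 : 2 * k ≤ 3 * b + 1 := by omega
      have h6 : (2 : ℝ) * k ≤ 3 * b + 1 := by exact_mod_cast h5
      have h7 : ((k : ℝ) + 1 - (b + 3 / 2)) ^ 2 < (((b : ℝ) + 2) / 2) ^ 2 := by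
        apply sq_lt_sq'
        · linarith
        · linarith
      linarith
    have hU' : ∀ w, 2 * (up Q w).card + 1 ≤ b := fun w =>
      key _ _ (hU w) (up_growth hPQ w) (lemmaA_closed_up hB hQ w)
    have hD' : ∀ w, 2 * (down Q w).card + 1 ≤ b := fun w =>
      key _ _ (hD w) (down_growth hPQ w) (lemmaA_closed hB hQ w)
    refine ⟨Q, insert z C, z, y, ⟨hQ, hQcard, hch, ?_, by simp, by simp, ?_, ?_⟩, hU', hD'⟩
    · rw [card_insert_of_notMem hzC]
      have := hSt.len
      omega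
    · intro w
      have := hU' w
      omega
    · intro w
      have := hD' w
      omega

/-- the main step, on the side of the up sets -/
theorem St.stepU {b : ℕ} {B : Set (Finset (V × V))} (hB : Alive b B) {m L E R sU sD K R₀ : ℕ}
    {e : ℝ} (hm : (Fintype.card V : ℝ) * Real.sqrt (b + 1) < ((L + 1) * m : ℕ)) (hmE : m ≤ E)
    (hE : 1 ≤ E) (hK : 2 * (b + 2 * E + 1) ≤ K * E) (hR₀ : (L + m) * (K + 1) ≤ R₀)
    (heE : (2 * E + 1 : ℝ) ≤ e) (heL : (((L + m) * (K + 1) + L + 1 : ℕ) : ℝ) ≤ e)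
    (hbn : b ≤ Fintype.card V)
    (hs : 40 * e * (Fintype.card V : ℝ) ≤
      (b : ℝ) ^ 2 - 4 * b * (Fintype.card V : ℝ) + 2 * (Fintype.card V : ℝ) ^ 2)
    {P : Finset (V × V)} {C : Finset V} {x y : V} (h : St b B (L + m) E R sU sD P C x y)
    (hR : R₀ ≤ R) (v' : V) (hv' : ∀ w, (up P w).card ≤ (up P v').card) (v : V)
    (hv : ∀ w, (down P w).card ≤ (down P v).card) (hle : (down P v).card ≤ (up P v').card) :
    ∃ Q C' z sU' sD', St b B (L + m) E (R + 1) sU' sD' Q C' z y := by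
  have hexp : (L + m) * (K + 1) = (L + m) * K + (L + m) := by ring
  have hsw := h.switches hE hK
  -- make the bottom good
  obtain ⟨C', x', sU', hSt, hx0, hx⟩ : ∃ C' x' sU', St b B (L + m) E R sU' sD P C' x' y ∧
      down P x' = ∅ ∧ (up P v').card ≤ (up P x').card + E := by
    rcases le_total (up P v').card ((up P x).card + E) with h1 | h1
    · obtain ⟨C', x', h2, h3, h4⟩ := h.minBot hB
      exact ⟨C', x', sU, h2, h3, by omega⟩
    · have hC : L + m < C.card := by
        have h2 := h.len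
        have h3 : (L + m) * (sU + sD) ≤ (L + m) * K := Nat.mul_le_mul_left _ hsw
        omega
      obtain ⟨C1, h2⟩ := h.switch hB hm hC v' hv' h1
      obtain ⟨C', x', h3, h4, h5⟩ := h2.minBot hB
      exact ⟨C', x', sU + 1, h3, h4, by omega⟩
  have hsw' := hSt.switches hE hK
  have hlen : R + 1 ≤ C'.card + (L + m) * K := by
    have h2 := hSt.len
    have h3 : (L + m) * (sU' + sD) ≤ (L + m) * K := Nat.mul_le_mul_left _ hsw'
    omega
  have he1 : 1 ≤ e := by
    have : (0 : ℝ) ≤ E := by positivity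
    linarith
  have hcardR : (P.card : ℝ) ≤ R * (b + 1) := by exact_mod_cast hSt.card
  -- the chain in the big sets
  have hk : ∀ k : ℕ, C'.card ≤ k + (L + m) → (R : ℝ) ^ 2 - 2 * e * R ≤ (k : ℝ) * (k - 1) := by
    intro k hk
    have h2 : R + 1 ≤ k + (L + m) * (K + 1) := by omega
    have h3 : (R : ℝ) + 1 ≤ k + (((L + m) * (K + 1) : ℕ) : ℝ) := by exact_mod_cast h2
    have h4 : (((L + m) * (K + 1) : ℕ) : ℝ) ≤ e := by
      refine le_trans ?_ heL
      exact_mod_cast (by omega : (L + m) * (K + 1) ≤ (L + m) * (K + 1) + L + 1)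
    have h5 : (R : ℝ) + 1 - e ≤ k := by linarith
    have hR0 : (0 : ℝ) ≤ R := by positivity
    rcases le_total (R : ℝ) e with h6 | h6
    · have h7 : (R : ℝ) ^ 2 - 2 * e * R ≤ 0 := by nlinarith
      have h8 : (0 : ℝ) ≤ (k : ℝ) * (k - 1) := by
        rcases Nat.eq_zero_or_pos k with h9 | h9
        · rw [h9]; simp
        · have h10 : (1 : ℝ) ≤ k := by exact_mod_cast h9
          exact mul_nonneg (by linarith) (by linarith)
      linarith
    · nlinarith
  have hDb := lemmaA_chain hB h.mem v (C'.filter fun c => c ∈ down P v)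
    (fun a ha c hc hac => hSt.ch.chain a (mem_filter.mp ha).1 c (mem_filter.mp hc).1 hac)
    (fun c hc => (mem_filter.mp hc).2)
  have hUb := lemmaA_chain_up hB h.mem v' (C'.filter fun c => c ∈ up P v')
    (fun a ha c hc hac => hSt.ch.chain a (mem_filter.mp ha).1 c (mem_filter.mp hc).1 hac)
    (fun c hc => (mem_filter.mp hc).2)
  have hDk := hk (C'.filter fun c => c ∈ down P v).card (by
    have h2 := chain_outside hB h.mem v hv m L hm C' hSt.ch.chain
    have h3 : (C'.filter fun c => c ∈ down P v).card +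
      (C'.filter fun c => c ∉ down P v).card = C'.card := card_filter_add_card_filter_not _
    omega)
  have hUk := hk (C'.filter fun c => c ∈ up P v').card (by
    have h2 := chain_outside_up hB h.mem v' hv' m L hm C' hSt.ch.chain
    have h3 : (C'.filter fun c => c ∈ up P v').card +
      (C'.filter fun c => c ∉ up P v').card = C'.card := card_filter_add_card_filter_not _
    omega)
  have hMU : ((up P v').card : ℝ) ≤ b + e := by
    have h2 : ((up P v').card : ℝ) ≤ b + 2 * E + 1 := by exact_mod_cast hSt.loU v'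
    linarith
  have hMD : ((down P v).card : ℝ) ≤ b + e := by
    have h2 : ((down P v).card : ℝ) ≤ b + 2 * E + 1 := by exact_mod_cast hSt.loD v
    linarith
  have hZ := numZ (n := (Fintype.card V : ℝ)) (b := (b : ℝ)) (R := (R : ℝ)) (e := e)
    (MU := ((up P v').card : ℝ)) (MD := ((down P v).card : ℝ))
    (by exact_mod_cast Fintype.card_pos_iff.mpr ⟨x⟩) he1 (by positivity)
    (by exact_mod_cast hbn) (by positivity) hs hMU hMD (by linarith) (by linarith)
  have hZ' : (up P v').card + (down P v).card + 2 + (L + m) + L < Fintype.card V + C'.card := by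
    have h2 : ((up P v').card : ℝ) + (down P v).card + 2 + (L + m) + L <
        (Fintype.card V : ℝ) + C'.card := by
      have h3 : (R : ℝ) + 1 ≤ C'.card + (((L + m) * K : ℕ) : ℝ) := by exact_mod_cast hlen
      have h4 : (((L + m) * K : ℕ) : ℝ) + (L + m) + L + 1 ≤ e := by
        have h5 : (((L + m) * (K + 1) + L + 1 : ℕ) : ℝ) =
            (((L + m) * K : ℕ) : ℝ) + (L + m) + L + 1 := by
          rw [hexp]
          push_cast
          ring
        rw [← h5]
        exact heL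
      linarith
    exact_mod_cast h2
  obtain ⟨Q, C'', z, h2⟩ := hSt.attack hB hm hmE hx0 v' hv' hx v hv hle hZ'
  exact ⟨Q, C'', z, sU', sD, h2⟩

/-- the main step -/
theorem St.step {b : ℕ} {B : Set (Finset (V × V))} (hB : Alive b B) {m L E R sU sD K R₀ : ℕ}
    {e : ℝ} (hm : (Fintype.card V : ℝ) * Real.sqrt (b + 1) < ((L + 1) * m : ℕ)) (hmE : m ≤ E)
    (hE : 1 ≤ E) (hK : 2 * (b + 2 * E + 1) ≤ K * E) (hR₀ : (L + m) * (K + 1) ≤ R₀)
    (heE : (2 * E + 1 : ℝ) ≤ e) (heL : (((L + m) * (K + 1) + L + 1 : ℕ) : ℝ) ≤ e)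
    (hbn : b ≤ Fintype.card V)
    (hs : 40 * e * (Fintype.card V : ℝ) ≤
      (b : ℝ) ^ 2 - 4 * b * (Fintype.card V : ℝ) + 2 * (Fintype.card V : ℝ) ^ 2)
    {P : Finset (V × V)} {C : Finset V} {x y : V} (h : St b B (L + m) E R sU sD P C x y)
    (hR : R₀ ≤ R) :
    ∃ Q C' x' y' sU' sD', St b B (L + m) E (R + 1) sU' sD' Q C' x' y' := by
  obtain ⟨v', -, hv'⟩ := exists_max_image (univ : Finset V) (fun w => (up P w).card) ⟨x, mem_univ x⟩
  obtain ⟨v, -, hv⟩ := exists_max_image (univ : Finset V) (fun w => (down P w).card)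
    ⟨x, mem_univ x⟩
  have hv'' : ∀ w, (up P w).card ≤ (up P v').card := fun w => hv' w (mem_univ w)
  have hvv : ∀ w, (down P w).card ≤ (down P v).card := fun w => hv w (mem_univ w)
  rcases le_total (down P v).card (up P v').card with hle | hle
  · obtain ⟨Q, C', z, sU', sD', h2⟩ :=
      h.stepU hB hm hmE hE hK hR₀ heE heL hbn hs hR v' hv'' v hvv hle
    exact ⟨Q, C', z, y, sU', sD', h2⟩
  · obtain ⟨Q, C', z, sU', sD', h2⟩ :=
      h.dual.stepU hB.dual hm hmE hE hK hR₀ heE heL hbn hs hR v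
        (by intro w; rw [up_image_swap, up_image_swap]; exact hvv w) v'
        (by intro w; rw [down_image_swap, down_image_swap]; exact hv'' w)
        (by rw [up_image_swap, down_image_swap]; exact hle)
    exact ⟨_, _, _, _, _, _, St.undual h2⟩

/-- There is no alive class. -/
theorem no_alive2 {b : ℕ} {B : Set (Finset (V × V))} (hB : Alive b B) {m L E K R₀ : ℕ}
    {e : ℝ} (hm : (Fintype.card V : ℝ) * Real.sqrt (b + 1) < ((L + 1) * m : ℕ)) (hmE : m ≤ E)
    (hE : 1 ≤ E) (hK : 2 * (b + 2 * E + 1) ≤ K * E) (hR₀ : (L + m) * (K + 1) ≤ R₀)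
    (heE : (2 * E + 1 : ℝ) ≤ e) (heL : (((L + m) * (K + 1) + L + 1 : ℕ) : ℝ) ≤ e)
    (hV : 1 < Fintype.card V) (hb : 1 ≤ b) (hbn : b ≤ Fintype.card V)
    (hs : 40 * e * (Fintype.card V : ℝ) ≤
      (b : ℝ) ^ 2 - 4 * b * (Fintype.card V : ℝ) + 2 * (Fintype.card V : ℝ) ^ 2)
    (hA : (((b : ℝ) + 2) / 2) ^ 2 ≤ ((Fintype.card V : ℝ) - (b + 3 / 2)) ^ 2
      - 2 * (R₀ * (b + 1))) : False := by
  have h1 : ∀ k, ∃ P C x y sU sD, St b B (L + m) E (R₀ + k) sU sD P C x y := by
    intro k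
    induction k with
    | zero =>
      obtain ⟨P, C, x, y, h2, -⟩ := phaseA hB (L + m) E R₀ hV hb hbn hA R₀ le_rfl
      exact ⟨P, C, x, y, 0, 0, h2⟩
    | succ k ih =>
      obtain ⟨P, C, x, y, sU, sD, h2⟩ := ih
      obtain ⟨Q, C', x', y', sU', sD', h3⟩ :=
        h2.step hB hm hmE hE hK hR₀ heE heL hbn hs (by omega)
      exact ⟨Q, C', x', y', sU', sD', h3⟩
  obtain ⟨P, C, x, y, sU, sD, h2⟩ := h1 (b + 2 * E + 2 + (L + m) * K)
  have h3 := h2.switches hE hK
  have h4 := h2.len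
  have h5 := h2.ch.card_le_up
  have h6 := h2.loU x
  have h7 : (L + m) * (sU + sD) ≤ (L + m) * K := Nat.mul_le_mul_left _ h3
  omega

end Pool.Agent.Helper16_OCG
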