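import Pool.Agent.Helper16_OCG.Chain

/-!
# The strategy of OMaker with a growing chain (MP_64dd91_co)
-/

set_option autoImplicit false
set_option linter.unusedSectionVars false

namespace Pool.Agent.Helper16_OCG

open Finset Pool.Agent.Helper51_OCG

variable {V : Type*} [Fintype V] [DecidableEq V]

lemma up_image_swap (P : Finset (V × V)) (v : V) : up (P.image Prod.swap) v = down P v := by
  ext w
  rw [mem_down, mem_up, mem_image_swap]

lemma up_mono {P Q : Finset (V × V)} (h : P ⊆ Q) (v : V) : up P v ⊆ up Q v := by
  intro w hw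
  simp only [mem_up] at hw ⊢
  exact h hw

/-- the dual class -/
def Bd (B : Set (Finset (V × V))) : Set (Finset (V × V)) := {P | P.image Prod.swap ∈ B}

/-- The state of the game after `R` rounds. -/
structure St (b : ℕ) (B : Set (Finset (V × V))) (M E : ℕ) (R sU sD : ℕ) (P : Finset (V × V))
    (C : Finset V) (x y : V) : Prop where
  mem : P ∈ B
  card : P.card ≤ R * (b + 1)
  ch : Ch P C x y
  len : R + 1 ≤ C.card + M * (sU + sD)
  pU : sU * E ≤ (up P x).card
  pD : sD * E ≤ (down P y).card
  loU : ∀ w, (up P w).card ≤ b + 2 * E + 1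
  loD : ∀ w, (down P w).card ≤ b + 2 * E + 1

theorem St.dual {b : ℕ} {B : Set (Finset (V × V))} {M E R sU sD : ℕ} {P : Finset (V × V)}
    {C : Finset V} {x y : V} (h : St b B M E R sU sD P C x y) :
    St b (Bd B) M E R sD sU (P.image Prod.swap) C y x where
  mem := by
    show (P.image Prod.swap).image Prod.swap ∈ B
    rw [image_swap_swap]
    exact h.mem
  card := by
    rw [card_image_swap]
    exact h.card
  ch := h.ch.dual
  len := by
    rw [add_comm sD sU]
    exact h.len
  pU := by
    rw [up_image_swap]
    exact h.pD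
  pD := by
    rw [down_image_swap]
    exact h.pU
  loU := by
    intro w
    rw [up_image_swap]
    exact h.loD w
  loD := by
    intro w
    rw [down_image_swap]
    exact h.loU w

theorem St.undual {b : ℕ} {B : Set (Finset (V × V))} {M E R sU sD : ℕ} {P : Finset (V × V)}
    {C : Finset V} {x y : V} (h : St b (Bd B) M E R sU sD P C x y) :
    St b B M E R sD sU (P.image Prod.swap) C y x := by
  have h1 := h.dual
  have h2 : Bd (Bd B) = B := by
    ext Q
    show (Q.image Prod.swap).image Prod.swap ∈ B ↔ Q ∈ B
    rw [image_swap_swap]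
  rw [h2] at h1
  exact h1

/-- almost all elements of a chain are in the largest up set -/
theorem chain_outside_up {b : ℕ} {B : Set (Finset (V × V))} (hB : Alive b B)
    {P : Finset (V × V)} (hP : P ∈ B) (v : V) (hv : ∀ w, (up P w).card ≤ (up P v).card)
    (m L : ℕ) (hm : (Fintype.card V : ℝ) * Real.sqrt (b + 1) < ((L + 1) * m : ℕ))
    (K : Finset V) (hK : ∀ a ∈ K, ∀ c ∈ K, a ≠ c → (a, c) ∈ P ∨ (c, a) ∈ P) :
    (K.filter fun c => c ∉ up P v).card ≤ L + m := by
  have h1 := chain_outside hB.dual (P := P.image Prod.swap)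
    (by show (P.image Prod.swap).image Prod.swap ∈ B; rw [image_swap_swap]; exact hP) v
    (by intro w; rw [down_image_swap, down_image_swap]; exact hv w) m L hm K
    (by
      intro a ha c hc hac
      rw [mem_image_swap, mem_image_swap]
      exact (hK a ha c hc hac).symm)
  simpa only [down_image_swap] using h1

/-- change of the bottom to the element with the largest up set -/
theorem St.switch {b : ℕ} {B : Set (Finset (V × V))} (hB : Alive b B) {m L E R sU sD : ℕ}
    (hm : (Fintype.card V : ℝ) * Real.sqrt (b + 1) < ((L + 1) * m : ℕ))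
    {P : Finset (V × V)} {C : Finset V} {x y : V} (h : St b B (L + m) E R sU sD P C x y)
    (hC : L + m < C.card) (v : V) (hv : ∀ w, (up P w).card ≤ (up P v).card)
    (hx : (up P x).card + E ≤ (up P v).card) :
    ∃ C', St b B (L + m) E R (sU + 1) sD P C' v y := by
  have h1 := chain_outside_up hB h.mem v hv m L hm C h.ch.chain
  have h2 : (C.filter fun c => c ∈ up P v).card + (C.filter fun c => c ∉ up P v).card = C.card :=
    card_filter_add_card_filter_not _
  have hex : ∃ c ∈ C, c ∈ up P v := by
    by_contra hno
    push Not at hno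
    have h3 : (C.filter fun c => c ∈ up P v) = ∅ := by
      rw [filter_eq_empty_iff]
      intro c hc
      exact hno c hc
    rw [h3, card_empty] at h2
    omega
  obtain ⟨c, hc, hcv⟩ := hex
  have hvy : (v, y) ∈ P := by
    by_cases hcy : c = y
    · rw [← hcy]; exact mem_up.mp hcv
    · exact hB.trans P h.mem _ _ _ (mem_up.mp hcv) (h.ch.top c hc hcy)
  refine ⟨insert v (C.filter fun c => c ∈ up P v), h.mem, h.card,
    h.ch.replBot hB h.mem hvy, ?_, ?_, h.pD, h.loU, h.loD⟩
  · have h3 : v ∉ (C.filter fun c => c ∈ up P v) := by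
      rw [mem_filter, mem_up]
      exact fun h4 => hB.irr P h.mem v h4.2
    rw [card_insert_of_notMem h3]
    have h4 := h.len
    have h5 : (L + m) * (sU + 1 + sD) = (L + m) * (sU + sD) + (L + m) := by ring
    rw [h5]
    omega
  · have h3 := h.pU
    rw [Nat.add_mul, one_mul]
    omega

/-- the bottom can be made minimal -/
theorem St.minBot {b : ℕ} {B : Set (Finset (V × V))} (hB : Alive b B) {M E R sU sD : ℕ}
    {P : Finset (V × V)} {C : Finset V} {x y : V} (h : St b B M E R sU sD P C x y) :
    ∃ C' x', St b B M E R sU sD P C' x' y ∧ down P x' = ∅ ∧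
      (up P x).card ≤ (up P x').card := by
  rcases (down P x).eq_empty_or_nonempty with h0 | h0
  · exact ⟨C, x, h, h0, le_rfl⟩
  · obtain ⟨z, hz, hmin⟩ := exists_min_image _ (fun z => (down P z).card) h0
    have hzx : (z, x) ∈ P := mem_down.mp hz
    have hz0 : down P z = ∅ := by
      by_contra hne
      obtain ⟨t, ht⟩ := nonempty_iff_ne_empty.mpr hne
      have htz : (t, z) ∈ P := mem_down.mp ht
      have htx : t ∈ down P x := mem_down.mpr (hB.trans P h.mem _ _ _ htz hzx)
      have h3 := hmin t htx
      have h4 : down P t ⊂ down P z := by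
        rw [Finset.ssubset_iff_of_subset]
        · exact ⟨t, ht, by simpa using hB.irr P h.mem t⟩
        · intro s hs
          simp only [mem_down] at hs ⊢
          exact hB.trans P h.mem _ _ _ hs htz
      have h5 := card_lt_card h4
      omega
    have hup : (up P x).card ≤ (up P z).card := by
      apply card_le_card
      intro w hw
      rw [mem_up] at hw ⊢
      exact hB.trans P h.mem _ _ _ hzx hw
    obtain ⟨hzC, hch⟩ := h.ch.addBot hB h.mem hzx
    refine ⟨insert z C, z, ⟨h.mem, h.card, hch, ?_, ?_, h.pD, h.loU, h.loD⟩, hz0, hup⟩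
    · rw [card_insert_of_notMem hzC]
      have := h.len
      omega
    · exact h.pU.trans hup

/-- the attack on the side of the up sets -/
theorem St.attack {b : ℕ} {B : Set (Finset (V × V))} (hB : Alive b B) {m L E R sU sD : ℕ}
    (hm : (Fintype.card V : ℝ) * Real.sqrt (b + 1) < ((L + 1) * m : ℕ)) (hmE : m ≤ E)
    {P : Finset (V × V)} {C : Finset V} {x y : V} (h : St b B (L + m) E R sU sD P C x y)
    (hx0 : down P x = ∅) (v' : V) (hv' : ∀ w, (up P w).card ≤ (up P v').card)
    (hx : (up P v').card ≤ (up P x).card + E) (v : V)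
    (hv : ∀ w, (down P w).card ≤ (down P v).card) (hle : (down P v).card ≤ (up P v').card)
    (hZ : (up P v').card + (down P v).card + 2 + (L + m) + L < Fintype.card V + C.card) :
    ∃ Q C' z, St b B (L + m) E (R + 1) sU sD Q C' z y := by
  -- the new element
  obtain ⟨X, hX⟩ : ∃ X, X = (univ : Finset V).filter fun z => z ∉ down P v ∧ E ≤ (up P z).card :=
    ⟨_, rfl⟩
  have hXc : X.card ≤ L := by
    by_contra hno
    push Not at hno
    have h1 := few_outside hB h.mem v hv E X (fun c hc => by
      rw [hX] at hc
      exact (mem_filter.mp hc).2)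
    have h2 : (((L + 1) * m : ℕ) : ℝ) ≤ ((X.card * E : ℕ) : ℝ) := by
      exact_mod_cast Nat.mul_le_mul hno hmE
    linarith
  have hCv := chain_outside hB h.mem v hv m L hm C h.ch.chain
  have hinter : C.card ≤ (up P x ∩ down P v).card + 1 + (L + m) := by
    have h1 : C ⊆ insert x (up P x ∩ down P v) ∪ (C.filter fun c => c ∉ down P v) := by
      intro c hc
      rw [mem_union, mem_insert, mem_inter, mem_filter, mem_up]
      by_cases hcx : c = x
      · exact Or.inl (Or.inl hcx)
      · by_cases hcv : c ∈ down P v
        · exact Or.inl (Or.inr ⟨h.ch.bot c hc hcx, hcv⟩)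
        · exact Or.inr ⟨hc, hcv⟩
    have h2 := (card_le_card h1).trans (card_union_le _ _)
    have h3 := card_insert_le x (up P x ∩ down P v)
    omega
  have hex : ∃ z, z ≠ x ∧ z ∉ up P x ∧ z ∉ down P v ∧ (up P z).card < E := by
    by_contra hno
    push Not at hno
    have h1 : (univ : Finset V) ⊆ insert x (up P x ∪ down P v) ∪ X := by
      intro z _
      rw [mem_union, mem_insert, mem_union]
      by_cases h2 : z = x
      · exact Or.inl (Or.inl h2)
      by_cases h3 : z ∈ up P x
      · exact Or.inl (Or.inr (Or.inl h3))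
      by_cases h4 : z ∈ down P v
      · exact Or.inl (Or.inr (Or.inr h4))
      right
      rw [hX, mem_filter]
      exact ⟨mem_univ _, h4, hno z h2 h3 h4⟩
    have h2 := (card_le_card h1).trans (card_union_le _ _)
    rw [card_univ] at h2
    have h3 := card_insert_le x (up P x ∪ down P v)
    have h4 := card_union_add_card_inter (up P x) (down P v)
    have h5 := hv' x
    omega
  obtain ⟨z, hzx, hzu, hzv, hzE⟩ := hex
  have h1 : (z, x) ∉ P := by
    intro h1
    have : z ∈ down P x := mem_down.mpr h1
    rw [hx0] at this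
    exact notMem_empty _ this
  have h2 : (x, z) ∉ P := fun h2 => hzu (mem_up.mpr h2)
  obtain ⟨Q, hQ, hPQ, hzxQ, hQc⟩ := hB.ext P h.mem z x hzx h1 h2
  obtain ⟨hzC, hch⟩ := (h.ch.mono hPQ).addBot hB hQ hzxQ
  have hupz : insert x (up P x) ⊆ up Q z := by
    intro w hw
    rw [mem_insert, mem_up] at hw
    rw [mem_up]
    rcases hw with rfl | hw
    · exact hzxQ
    · exact hB.trans Q hQ _ _ _ hzxQ (hPQ hw)
  have hxx : x ∉ up P x := by
    rw [mem_up]
    exact hB.irr P h.mem x
  -- the forced relations
  obtain ⟨F, hF⟩ : ∃ F : Finset (V × V), F = (up Q z \ up P z).image fun w => (z, w) := ⟨_, rfl⟩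
  have hFsub : F ⊆ Q \ P := by
    intro e he
    rw [hF, mem_image] at he
    obtain ⟨w, hw, rfl⟩ := he
    rw [mem_sdiff, mem_up, mem_up] at hw
    exact mem_sdiff.mpr hw
  have hFc : F.card = (up Q z).card - (up P z).card := by
    rw [hF, card_image_of_injective _ (fun a c h => by simpa using h),
      card_sdiff_of_subset (up_mono hPQ z)]
  have hupc : (up P x).card + 1 ≤ (up Q z).card := by
    have h3 := card_le_card hupz
    rwa [card_insert_of_notMem hxx] at h3
  have hFc' : (up P x).card + 2 ≤ F.card + E := by
    rw [hFc]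
    omega
  have hnew : (Q \ P).card ≤ b + 1 := by
    rw [card_sdiff_of_subset hPQ]
    omega
  have hrest : ((Q \ P) \ F).card + F.card ≤ b + 1 := by
    rw [card_sdiff_of_subset hFsub]
    have := card_le_card hFsub
    omega
  refine ⟨Q, insert z C, z, hQ, ?_, hch, ?_, ?_, ?_, ?_, ?_⟩
  · have := h.card
    rw [Nat.add_mul, one_mul]
    omega
  · rw [card_insert_of_notMem hzC]
    have := h.len
    omega
  · have := h.pU
    omega
  · exact h.pD.trans (card_le_card (down_mono hPQ y))
  · -- up sets
    intro w
    by_cases hwz : w = z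
    · subst hwz
      have h3 := up_growth hPQ w
      omega
    · have h3 : (up Q w \ up P w).image (fun t => (w, t)) ⊆ (Q \ P) \ F := by
        intro e he
        rw [mem_image] at he
        obtain ⟨t, ht, rfl⟩ := he
        rw [mem_sdiff, mem_up, mem_up] at ht
        rw [mem_sdiff, mem_sdiff]
        refine ⟨ht, ?_⟩
        rw [hF, mem_image]
        rintro ⟨s, -, hs⟩
        rw [Prod.mk.injEq] at hs
        exact hwz hs.1.symm
      have h4 := card_le_card h3
      rw [card_image_of_injective _ (fun a c h => by simpa using h),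
        card_sdiff_of_subset (up_mono hPQ w)] at h4
      have h5 := hv' w
      omega
  · -- down sets
    intro w
    have h3 : (down Q w \ down P w).image (fun t => (t, w)) ⊆ ((Q \ P) \ F) ∪ {(z, w)} := by
      intro e he
      rw [mem_image] at he
      obtain ⟨t, ht, rfl⟩ := he
      rw [mem_sdiff, mem_down, mem_down] at ht
      rw [mem_union, mem_singleton]
      by_cases htz : t = z
      · right
        rw [htz]
      · left
        rw [mem_sdiff, mem_sdiff]
        refine ⟨ht, ?_⟩
        rw [hF, mem_image]
        rintro ⟨s, -, hs⟩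
        rw [Prod.mk.injEq] at hs
        exact htz hs.1.symm
    have h4 := (card_le_card h3).trans (card_union_le _ _)
    rw [card_image_of_injective _ (fun a c h => by simpa using h),
      card_sdiff_of_subset (down_mono hPQ w), card_singleton] at h4
    have h5 := hv w
    omega

end Pool.Agent.Helper16_OCG
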