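import Pool.Agent.Helper16_OCG.Burn

/-!
# MP_64dd91_co: the strict game and the rounds
-/

set_option autoImplicit false

namespace Pool.Agent.Helper16_OCG

open Finset Pool.Agent.Helper51_OCG Pool.Agent.Helper15_OCG

variable {n : ℕ} {P : Position n} {A B : Finset (Fin n)} {kU kD b : ℕ} {u v : Fin n}

/-- The number of arcs and the number of undirected edges. -/
theorem card_split (hP : Legal P) : P.card + (undirected P).card =
    (univ.filter fun e : Fin n × Fin n => e.1 < e.2).card := by
  have hsub : undirected P ⊆ univ.filter fun e : Fin n × Fin n => e.1 < e.2 := by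
    intro e he
    exact mem_filter.mpr ⟨mem_univ _, (mem_undirected.mp he).1⟩
  have h1 := card_sdiff_add_card_eq_card hsub
  have h2 : P.card =
      ((univ.filter fun e : Fin n × Fin n => e.1 < e.2) \ undirected P).card := by
    apply card_bij (fun p _ => if p.1 < p.2 then p else p.swap)
    · intro p hp
      have hne := (hP p.1 p.2 hp).1
      by_cases hlt : p.1 < p.2
      · rw [if_pos hlt, mem_sdiff, mem_filter]
        exact ⟨⟨mem_univ _, hlt⟩, fun h3 => (mem_undirected.mp h3).2.1 hp⟩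
      · rw [if_neg hlt, mem_sdiff, mem_filter]
        refine ⟨⟨mem_univ _, ?_⟩, fun h3 => (mem_undirected.mp h3).2.2 hp⟩
        exact lt_of_le_of_ne (not_lt.mp hlt) hne.symm
    · intro p hp q hq hpq
      by_cases hlt : p.1 < p.2
      · rw [if_pos hlt] at hpq
        by_cases hlt2 : q.1 < q.2
        · rwa [if_pos hlt2] at hpq
        · rw [if_neg hlt2] at hpq
          rw [hpq] at hp
          exact absurd hp (hP q.1 q.2 hq).2
      · rw [if_neg hlt] at hpq
        by_cases hlt2 : q.1 < q.2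
        · rw [if_pos hlt2] at hpq
          rw [← hpq] at hq
          exact absurd hq (hP p.1 p.2 hp).2
        · rw [if_neg hlt2] at hpq
          exact Prod.swap_injective hpq
    · intro e he
      rw [mem_sdiff, mem_filter, mem_undirected] at he
      obtain ⟨⟨-, hlt⟩, h3⟩ := he
      by_cases h4 : (e.1, e.2) ∈ P
      · exact ⟨e, h4, if_pos hlt⟩
      · have h5 : (e.2, e.1) ∈ P := by
          by_contra h6
          exact h3 ⟨hlt, h4, h6⟩
        refine ⟨(e.2, e.1), h5, ?_⟩
        rw [if_neg (not_lt.mpr hlt.le)]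
        rfl
  omega

/-- A class of positions in which OBreaker can stay under the strict rule is lost for OMaker. -/
theorem not_wins_strict (C : Position n → Prop)
    (hC : ∀ P, C P → ∃ A B kU kD, St P A B kU kD)
    (hstep : ∀ (P : Position n) (u v : Fin n), C P → u ≠ v → (u, v) ∉ P → (v, u) ∉ P →
      ∃ P' : Position n, P ⊆ P' ∧ (u, v) ∈ P' ∧ C P' ∧ P'.card ≤ P.card + b + 1 ∧
        (P'.card = P.card + b + 1 ∨ undirected P' = ∅))
    (hw : OMakerWins (strictRule b) P) : ¬ C P := by
  induction hw with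
  | finished P hP hc =>
    intro h
    obtain ⟨A, B, kU, kD, hst⟩ := hC P h
    exact hst.not_cycle hc
  | play P u v huv h1 h2 hfull hreply ih =>
    intro h
    obtain ⟨P', hP', hm, hcls, hc, hor⟩ := hstep P u v h huv h1 h2
    have hsub : insert (u, v) P ⊆ P' := insert_subset hm hP'
    have hci : (insert (u, v) P).card = P.card + 1 := card_insert_of_notMem h1
    obtain ⟨A, B, kU, kD, hst⟩ := hC P' hcls
    by_cases hund : undirected (insert (u, v) P) = ∅
    · exact hst.not_cycle ((hfull hund).mono hsub)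
    · refine ih hund P' ⟨hst.legal, hsub, ?_⟩ hcls
      have hleg : Legal (insert (u, v) P) := by
        intro x y hxy
        refine ⟨(hst.legal x y (hsub hxy)).1, fun h3 => (hst.legal x y (hsub hxy)).2 (hsub h3)⟩
      have h3 := card_split hleg
      have h4 := card_split hst.legal
      have h5 := card_le_card hsub
      show (P' \ insert (u, v) P).card = min b (undirected (insert (u, v) P)).card
      rw [card_sdiff_of_subset hsub]
      rcases hor with h6 | h6
      · omega
      · rw [h6, card_empty] at h4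
        omega

/-! ## Rounds -/

theorem st_mono {kU' kD' : ℕ} (h : St P A B kU kD) (h1 : kU ≤ kU') (h2 : kD ≤ kD') :
    St P A B kU' kD' where
  irr := h.irr
  trans := h.trans
  disj := h.disj
  full := h.full
  loc := h.loc
  nestD := h.nestD
  nestU := h.nestU
  envU x hx := (h.envU x hx).trans h1
  envD x hx := (h.envD x hx).trans h2

theorem typeB_many : ∀ (m : ℕ) (P : Position n) (B : Finset (Fin n)), St P A B kU kD →
    A.card + B.card + m ≤ n → ∃ (P' : Position n) (B' : Finset (Fin n)), P ⊆ P' ∧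
      B'.card = B.card + m ∧ St P' A B' kU kD ∧ P'.card ≤ P.card + m * A.card := by
  intro m
  induction m with
  | zero => intro P B h _; exact ⟨P, B, Subset.refl _, rfl, h, by omega⟩
  | succ m ih =>
    intro P B h hm
    obtain ⟨z, hzA, hzB⟩ := exists_untyped (A := A) (B := B) (by omega)
    obtain ⟨P₁, hP₁, hst₁, hc₁⟩ := h.typeB hzA hzB
    have hcB : (insert z B).card = B.card + 1 := card_insert_of_notMem hzB
    obtain ⟨P₂, B₂, hP₂, hB₂, hst₂, hc₂⟩ := ih P₁ (insert z B) hst₁ (by omega)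
    refine ⟨P₂, B₂, hP₁.trans hP₂, by omega, hst₂, ?_⟩
    rw [Nat.succ_mul]
    omega

/-- The answer to an attack, with one vertex typed. -/
theorem attack (h : St P A B kU kD) (hn : A.card + B.card < n) (huv : u ≠ v) (h1 : (u, v) ∉ P)
    (h2 : (v, u) ∉ P) :
    (∃ (P' : Position n) (A' : Finset (Fin n)), P ⊆ P' ∧ (u, v) ∈ P' ∧ A'.card = A.card + 1 ∧
      St P' A' B (kU + 1) kD ∧ P'.card ≤ P.card + (kU + 1 + B.card)) ∨
    (∃ (P' : Position n) (B' : Finset (Fin n)), P ⊆ P' ∧ (u, v) ∈ P' ∧ B'.card = B.card + 1 ∧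
      St P' A B' kU (kD + 1) ∧ P'.card ≤ P.card + (kD + 1 + A.card)) := by
  obtain ⟨z, hzA, hzB⟩ := exists_untyped hn
  rcases h.cases h1 h2 with ⟨hu, hv⟩ | ⟨hu, hv⟩
  · left
    obtain ⟨P', hP', hm, hst', hc⟩ := h.left huv hu hv h1 h2
    by_cases huA : u ∈ A
    · rw [insert_eq_self.mpr huA] at hst'
      rw [if_pos huA] at hc
      obtain ⟨P'', hP'', hst'', hc'⟩ := hst'.typeA hzA hzB
      exact ⟨P'', insert z A, hP'.trans hP'', hP'' hm, card_insert_of_notMem hzA, hst'', by omega⟩
    · rw [if_neg huA] at hc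
      exact ⟨P', insert u A, hP', hm, card_insert_of_notMem huA, hst', by omega⟩
  · right
    obtain ⟨P', hP', hm, hst', hc⟩ := h.right huv hu hv h1 h2
    by_cases hvB : v ∈ B
    · rw [insert_eq_self.mpr hvB] at hst'
      rw [if_pos hvB] at hc
      obtain ⟨P'', hP'', hst'', hc'⟩ := hst'.typeB hzA hzB
      exact ⟨P'', insert z B, hP'.trans hP'', hP'' hm, card_insert_of_notMem hzB, hst'', by omega⟩
    · rw [if_neg hvB] at hc
      exact ⟨P', insert v B, hP', hm, card_insert_of_notMem hvB, hst', by omega⟩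

/-- The answer to an attack, with further vertices typed into `B`. -/
theorem round (h : St P A B kU kD) (hn : A.card + B.card < n) (huv : u ≠ v) (h1 : (u, v) ∉ P)
    (h2 : (v, u) ∉ P) {mL mR : ℕ} (hL : A.card + 1 + B.card + mL ≤ n)
    (hR : A.card + (B.card + 1) + mR ≤ n) :
    (∃ (P' : Position n) (A' B' : Finset (Fin n)), P ⊆ P' ∧ (u, v) ∈ P' ∧
      A'.card = A.card + 1 ∧ B'.card = B.card + mL ∧ St P' A' B' (kU + 1) kD ∧
      P'.card ≤ P.card + (kU + 1 + B.card + mL * (A.card + 1))) ∨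
    (∃ (P' : Position n) (A' B' : Finset (Fin n)), P ⊆ P' ∧ (u, v) ∈ P' ∧
      A'.card = A.card ∧ B'.card = B.card + 1 + mR ∧ St P' A' B' kU (kD + 1) ∧
      P'.card ≤ P.card + (kD + 1 + A.card + mR * A.card)) := by
  rcases attack h hn huv h1 h2 with ⟨P₁, A', hP₁, hm, hA', hst₁, hc₁⟩ |
      ⟨P₁, B', hP₁, hm, hB', hst₁, hc₁⟩
  · left
    obtain ⟨P₂, B₂, hP₂, hB₂, hst₂, hc₂⟩ := typeB_many mL P₁ B hst₁ (by omega)
    refine ⟨P₂, A', B₂, hP₁.trans hP₂, hP₂ hm, hA', hB₂, hst₂, ?_⟩
    rw [hA'] at hc₂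
    omega
  · right
    obtain ⟨P₂, B₂, hP₂, hB₂, hst₂, hc₂⟩ := typeB_many mR P₁ B' hst₁ (by omega)
    exact ⟨P₂, A, B₂, hP₁.trans hP₂, hP₂ hm, rfl, by omega, hst₂, by omega⟩

end Pool.Agent.Helper16_OCG
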