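import Pool.Agent.Helper16_OCG.StrictGame

/-!
# MP_64dd91_co: the numbers of the strict strategy
-/

set_option autoImplicit false

namespace Pool.Agent.Helper16_OCG

/-- The number of rounds if OMaker always attacks on the left. -/
def W (a i : ℕ) : ℕ :=
  if h : i = 0 then 0 else 1 + W (a + 1) (i - 1 - i / (a + 1))
termination_by i
decreasing_by
  exact lt_of_le_of_lt (Nat.sub_le _ _) (by omega)

theorem W_zero (a : ℕ) : W a 0 = 0 := by
  rw [W]
  simp

theorem W_pos {a i : ℕ} (h : 0 < i) : W a i = 1 + W (a + 1) (i - 1 - i / (a + 1)) := by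
  rw [W]
  rw [dif_neg (by omega)]

theorem W_mono : ∀ (i' a a' i : ℕ), a ≤ a' → i ≤ i' → W a i ≤ W a' i' := by
  intro i'
  induction i' using Nat.strong_induction_on with
  | _ i' ih =>
  intro a a' i ha hi
  rcases Nat.eq_zero_or_pos i with h0 | h0
  · rw [h0, W_zero]
    exact Nat.zero_le _
  · have h0' : 0 < i' := by omega
    rw [W_pos h0, W_pos h0']
    have h1 : i' / (a' + 1) ≤ i' / (a + 1) := Nat.div_le_div_left (by omega) (by omega)
    have h2 : i' / (a + 1) ≤ i / (a + 1) + (i' - i) := by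
      have h3 : i' ≤ i + (i' - i) * (a + 1) := by
        have := Nat.le_mul_of_pos_right (i' - i) (show 0 < a + 1 by omega)
        omega
      calc i' / (a + 1) ≤ (i + (i' - i) * (a + 1)) / (a + 1) := Nat.div_le_div_right h3
        _ = i / (a + 1) + (i' - i) := Nat.add_mul_div_right _ _ (by omega)
    have h4 := ih (i' - 1 - i' / (a' + 1)) (lt_of_le_of_lt (Nat.sub_le _ _) (by omega)) (a + 1)
      (a' + 1) (i - 1 - i / (a + 1)) (by omega) (by
        generalize i' / (a' + 1) = x at *
        generalize i' / (a + 1) = y at *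
        generalize i / (a + 1) = z at *
        omega)
    omega

theorem le_W : ∀ (i a : ℕ), i ≤ a → i ≤ W a i := by
  intro i
  induction i with
  | zero => intro a _; exact Nat.zero_le _
  | succ i ih =>
    intro a ha
    rw [W_pos (by omega)]
    have h1 : (i + 1) / (a + 1) = 0 := Nat.div_eq_of_lt (by omega)
    rw [h1]
    have := ih (a + 1) (by omega)
    have e : i + 1 - 1 - 0 = i := by omega
    rw [e]
    omega

theorem W_le : ∀ (i a : ℕ), W a i ≤ i := by
  intro i
  induction i using Nat.strong_induction_on with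
  | _ i ih =>
  intro a
  rcases Nat.eq_zero_or_pos i with h0 | h0
  · rw [h0, W_zero]
  · rw [W_pos h0]
    have h1 := ih (i - 1 - i / (a + 1)) (lt_of_le_of_lt (Nat.sub_le _ _) (by omega)) (a + 1)
    have h2 : i - 1 - i / (a + 1) ≤ i - 1 := Nat.sub_le _ _
    omega

theorem W_step {p q r p' q' r' k : ℕ} (hp : 0 < p)
    (hprev : ∀ a i : ℕ, 1 ≤ a → p * W a i ≤ q * i + r * (a + 1))
    (h1 : p' + r' = q' * (k + 1))
    (h2 : ∀ a i : ℕ, i ≤ k * (a + 1) → p' * (q * i + r * (a + 1)) ≤ p * (q' * i + r' * (a + 1))) :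
    ∀ i a : ℕ, 1 ≤ a → p' * W a i ≤ q' * i + r' * (a + 1) := by
  intro i
  induction i using Nat.strong_induction_on with
  | _ i ih =>
  intro a ha
  rcases Nat.eq_zero_or_pos i with h0 | h0
  · rw [h0, W_zero]
    simp
  · by_cases hj : k ≤ i / (a + 1)
    · rw [W_pos h0]
      have h3 : i / (a + 1) ≤ i / 2 := Nat.div_le_div_left (by omega) (by omega)
      obtain ⟨m, hm⟩ : ∃ m, i = m + 1 + i / (a + 1) := ⟨i - 1 - i / (a + 1), by omega⟩
      have hm' : i - 1 - i / (a + 1) = m := by omega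
      rw [hm']
      have h4 := ih m (by omega) (a + 1) (by omega)
      have h5 : q' * (k + 1) ≤ q' * (1 + i / (a + 1)) := Nat.mul_le_mul_left _ (by omega)
      have h6 : q' * i = q' * m + q' * (1 + i / (a + 1)) := by
        rw [← Nat.mul_add]
        congr 1
        omega
      rw [h6]
      have h7 : r' * (a + 1 + 1) = r' * (a + 1) + r' := by ring
      rw [h7] at h4
      rw [Nat.mul_add, Nat.mul_one]
      omega
    · have h3 : i ≤ k * (a + 1) := by
        have h4 : i / (a + 1) < k := by omega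
        have := (Nat.div_lt_iff_lt_mul (by omega)).mp h4
        omega
      have h4 := h2 a i h3
      have h5 : p' * (p * W a i) ≤ p' * (q * i + r * (a + 1)) :=
        Nat.mul_le_mul_left _ (hprev a i ha)
      have h6 : p * (p' * W a i) ≤ p * (q' * i + r' * (a + 1)) := by
        calc p * (p' * W a i) = p' * (p * W a i) := by ring
          _ ≤ _ := h5.trans h4
      exact Nat.le_of_mul_le_mul_left h6 hp

theorem W_le4 {a i : ℕ} (ha : 1 ≤ a) : 315 * W a i ≤ 128 * i + 325 * (a + 1) := by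
  have h0 : ∀ a i : ℕ, 1 ≤ a → 1 * W a i ≤ 1 * i + 0 * (a + 1) := by
    intro a i _
    have := W_le i a
    omega
  have h1 : ∀ i a : ℕ, 1 ≤ a → 3 * W a i ≤ 2 * i + 1 * (a + 1) :=
    W_step (k := 1) (by norm_num) h0 (by norm_num) (by intro a i h; omega)
  have h2 : ∀ i a : ℕ, 1 ≤ a → 15 * W a i ≤ 8 * i + 9 * (a + 1) :=
    W_step (k := 2) (by norm_num) (fun a i => h1 i a) (by norm_num) (by intro a i h; omega)
  have h3 : ∀ i a : ℕ, 1 ≤ a → 35 * W a i ≤ 16 * i + 29 * (a + 1) :=
    W_step (k := 3) (by norm_num) (fun a i => h2 i a) (by norm_num) (by intro a i h; omega)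
  have h4 : ∀ i a : ℕ, 1 ≤ a → 315 * W a i ≤ 128 * i + 325 * (a + 1) :=
    W_step (k := 4) (by norm_num) (fun a i => h3 i a) (by norm_num) (by intro a i h; omega)
  exact h4 i a ha

/-! ## The capacity of safe positions -/

/-- Twice the capacity of a safe position with `|A| + |B| = 2 N + S`. -/
def G (N S : ℕ) : ℕ := S * S + S + 2 * N * S + 2 * (N * N)

theorem kstep_pos {N α γ i k b t : ℕ} (hN : 1 ≤ N) (hb : b = 2 * N + α + γ + i) (h9 : 9 * N ≤ b)
    (hphi : i * (N + α) ≤ b * N) (hk : k = i / (N + α + 1)) (hk1 : 1 ≤ k)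
    (hK : 2 * ((b + 1) * t) ≤ G N (N + α + γ)) :
    2 * ((b + 1) * (t + 1)) ≤ G N (N + α + γ + 1 + k) := by
  obtain ⟨a, ha⟩ : ∃ a, a = N + α := ⟨_, rfl⟩
  obtain ⟨g, hg⟩ : ∃ g, g = N + γ := ⟨_, rfl⟩
  rw [← ha] at hphi hk
  have hb' : b = a + g + i := by omega
  have ha1 : 1 ≤ a := by omega
  have hgN : N ≤ g := by omega
  have hlow : k * (a + 1) ≤ i := by
    rw [hk]
    exact Nat.div_mul_le_self _ _
  have hup : i < (k + 1) * (a + 1) := by
    rw [hk]
    have := Nat.lt_div_mul_add (a := i) (b := a + 1) (by omega)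
    calc i < i / (a + 1) * (a + 1) + (a + 1) := this
      _ = _ := by ring
  -- the key inequality
  have key : a ≤ k * g := by
    by_contra hcon
    push Not at hcon
    rcases Nat.lt_or_ge k 2 with hk2 | hk2
    · have hk' : k = 1 := by omega
      rw [hk'] at hcon hup
      have hi1 : a + 1 ≤ i := by
        rw [hk'] at hlow
        omega
      obtain ⟨e, rfl⟩ : ∃ e, i = a + 1 + e := ⟨i - (a + 1), by omega⟩
      have he : e ≤ a := by omega
      have h2 : b ≤ 3 * a + e := by omega
      have h3 : 9 * ((a + 1 + e) * a) ≤ b * b := by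
        calc 9 * ((a + 1 + e) * a) ≤ 9 * (b * N) := by omega
          _ = b * (9 * N) := by ring
          _ ≤ b * b := Nat.mul_le_mul_left _ h9
      have h4 : b * b ≤ (3 * a + e) * (3 * a + e) := Nat.mul_le_mul h2 h2
      have h5 : e * e ≤ e * a := Nat.mul_le_mul_left _ he
      nlinarith
    · have h2 : 2 * g ≤ k * g := Nat.mul_le_mul_right _ hk2
      have h3 : 2 * g < a := by omega
      have h4 : 2 * (a + 1) ≤ k * (a + 1) := Nat.mul_le_mul_right _ hk2
      have h5 : b * N ≤ b * g := Nat.mul_le_mul_left _ hgN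
      have h6 : 2 * (i * a) ≤ b * a := by
        calc 2 * (i * a) ≤ 2 * (b * g) := by omega
          _ = b * (2 * g) := by ring
          _ ≤ b * a := Nat.mul_le_mul_left _ h3.le
      have h7 : 2 * i ≤ b := by
        have h8 : (2 * i) * a ≤ b * a := by
          calc (2 * i) * a = 2 * (i * a) := by ring
            _ ≤ b * a := h6
        exact Nat.le_of_mul_le_mul_right h8 ha1
      omega
  have hS : N + α + γ = a + γ := by omega
  rw [hS] at hK ⊢
  have hkk : k * (a + γ + N) = k * a + k * g := by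
    rw [hg]
    ring
  have h2 : (k + 1) * (a + 1) = k * a + k + a + 1 := by ring
  unfold G at hK ⊢
  have h3 : b + 1 ≤ (k + 1) * (a + γ + N) + (k + 1) := by
    have h4 : (k + 1) * (a + γ + N) = k * (a + γ + N) + (a + γ + N) := by ring
    rw [h4, hkk]
    omega
  have hk3 : k + 1 ≤ (k + 1) * k := Nat.le_mul_of_pos_right _ hk1
  nlinarith

theorem kstep_zero {N α γ i b t : ℕ} (hb : b = 2 * N + α + γ + i) (hi : 1 ≤ i)
    (ht : 2 * (t + i) ≤ b) : 2 * ((b + 1) * (t + 1)) ≤ G N (N + α + γ + 1) := by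
  obtain ⟨j, rfl⟩ : ∃ j, i = j + 1 := ⟨i - 1, by omega⟩
  have h1 : 2 * (t + 1) + 2 * j ≤ b := by omega
  have h2 := Nat.mul_le_mul_left (b + 1) h1
  have h3 : N ≤ N * N := Nat.le_mul_self N
  unfold G
  subst hb
  nlinarith

end Pool.Agent.Helper16_OCG
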