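import Pool.Agent.Helper16_OCG.StrictSafe

/-!
# MP_64dd91_co: the first rounds of the strict strategy, and the theorem
-/

set_option autoImplicit false

namespace Pool.Agent.Helper16_OCG

open Finset Pool.Agent.Helper51_OCG Pool.Agent.Helper15_OCG

variable {n : ℕ} {P : Position n} {A B : Finset (Fin n)} {kU kD b N : ℕ} {u v : Fin n}

/-- The numbers after `t` of the first rounds: `l` attacks on the left, `r` on the right,
`|A| = N + l`, `|B| = x + r`, `i` vertices outside `A ∪ B`. -/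
structure PN (b N t l r x i : ℕ) : Prop where
  ht : l + r = t
  hi : i + t + x = b
  hmin : 126 * t ≤ 21 * x ∨ 105 * t + 3 * N ≤ 21 * x ∨ 84 * t + 10 * N ≤ 21 * x
  hphi : i * (N + l) ≤ b * N
  hsl : 2 * ((b + 1) * t) + (N + 2) * (N + 3) ≤
    2 * ((N + l) * (x + r)) + l * (l + 1) + (N + 2 + r) * (N + 3 + r) + (2 * t * N + t * t)

variable {t l r x i : ℕ}

theorem PN.bound (h : PN b N t l r x i) (hx : x < 2 * N + 2) : 84 * t ≤ 32 * N + 21 := by
  have := h.hmin
  omega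

theorem min_step {k : ℕ} (h : 126 * t ≤ 21 * x ∨ 105 * t + 3 * N ≤ 21 * x ∨
    84 * t + 10 * N ≤ 21 * x) (h4 : 4 ≤ k) (h6 : 7 * t ≤ N → 6 ≤ k) (h5 : 3 * t ≤ N → 5 ≤ k) :
    126 * (t + 1) ≤ 21 * (x + k) ∨ 105 * (t + 1) + 3 * N ≤ 21 * (x + k) ∨
      84 * (t + 1) + 10 * N ≤ 21 * (x + k) := by
  omega

theorem PN.left (h : PN b N t l r x i) (hN : 1 ≤ N) (hb : 9 * N + 25 ≤ b) (hx : x < 2 * N + 2)
    {k : ℕ} (hk : k = i / (N + l + 1)) :
    k * (N + l + 1) ≤ i ∧ k + 1 ≤ i ∧ PN b N (t + 1) (l + 1) r (x + k) (i - 1 - k) := by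
  have hbd := h.bound hx
  have h0 := h.hmin
  have h1 := h.ht
  have h2 := h.hi
  have hphi := h.hphi
  have hsl := h.hsl
  have hk1 : k * (N + l + 1) ≤ i := by
    rw [hk]
    exact Nat.div_mul_le_self _ _
  have hk2 : i < (k + 1) * (N + l + 1) := by
    rw [hk]
    have := Nat.lt_div_mul_add (a := i) (b := N + l + 1) (by omega)
    calc i < i / (N + l + 1) * (N + l + 1) + (N + l + 1) := this
      _ = _ := by ring
  have hk3 : 2 * k ≤ i := by
    have : k * 2 ≤ k * (N + l + 1) := Nat.mul_le_mul_left _ (by omega)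
    omega
  have hge : ∀ m : ℕ, m * (N + l + 1) ≤ i → m ≤ k := by
    intro m hm
    rw [hk]
    exact (Nat.le_div_iff_mul_le (by omega)).mpr hm
  obtain ⟨j, hj⟩ : ∃ j, i = j + 1 + k := ⟨i - 1 - k, by omega⟩
  have hj' : i - 1 - k = j := by omega
  refine ⟨hk1, by omega, ?_⟩
  rw [hj']
  constructor
  · omega
  · omega
  · exact min_step h0 (hge 4 (by omega)) (fun h7 => hge 6 (by omega)) (fun h7 => hge 5 (by omega))
  · refine le_trans ?_ hphi
    have e1 : i * (N + l + 1) = i * (N + l) + i := by ring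
    have e2 : i * (N + l + 1) = j * (N + l + 1) + (k + 1) * (N + l + 1) := by
      rw [hj]
      ring
    have e3 : N + (l + 1) = N + l + 1 := rfl
    rw [e3]
    omega
  · have e1 : (N + (l + 1)) * (x + k + r) = (N + l) * (x + r) + (x + r) + k * (N + l + 1) := by
      ring
    have e2 : (l + 1) * (l + 1 + 1) = l * (l + 1) + 2 * (l + 1) := by ring
    have e3 : (b + 1) * (t + 1) = (b + 1) * t + (b + 1) := by ring
    have e4 : 2 * (t + 1) * N + (t + 1) * (t + 1) = 2 * t * N + t * t + (2 * N + 2 * t + 1) := by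
      ring
    have e5 : (k + 1) * (N + l + 1) = k * (N + l + 1) + (N + l + 1) := by ring
    rw [e1, e2, e3, e4]
    omega

theorem PN.right (h : PN b N t l r x i) (hN : 1 ≤ N) (hb : 9 * N + 25 ≤ b) (hx : x < 2 * N + 2)
    {k : ℕ} (hk : k = (b - 2 * N - 2 - t) / (N + l)) :
    k * (N + l) + (2 * N + 2 + t) ≤ b ∧ k + 1 ≤ i ∧
      PN b N (t + 1) l (r + 1) (x + k) (i - 1 - k) := by
  have hbd := h.bound hx
  have h0 := h.hmin
  have h1 := h.ht
  have h2 := h.hi
  have hphi := h.hphi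
  have hsl := h.hsl
  obtain ⟨R, hR⟩ : ∃ R, b = R + (2 * N + 2 + t) := ⟨b - (2 * N + 2 + t), by omega⟩
  have hR' : b - 2 * N - 2 - t = R := by omega
  rw [hR'] at hk
  have hk1 : k * (N + l) ≤ R := by
    rw [hk]
    exact Nat.div_mul_le_self _ _
  have hk2 : R < (k + 1) * (N + l) := by
    rw [hk]
    have := Nat.lt_div_mul_add (a := R) (b := N + l) (by omega)
    calc R < R / (N + l) * (N + l) + (N + l) := this
      _ = _ := by ring
  have hk3 : k ≤ R := by
    have : k * 1 ≤ k * (N + l) := Nat.mul_le_mul_left _ (by omega)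
    omega
  have hge : ∀ m : ℕ, m * (N + l) ≤ R → m ≤ k := by
    intro m hm
    rw [hk]
    exact (Nat.le_div_iff_mul_le (by omega)).mpr hm
  obtain ⟨j, hj⟩ : ∃ j, i = j + 1 + k := ⟨i - 1 - k, by omega⟩
  have hj' : i - 1 - k = j := by omega
  refine ⟨by omega, by omega, ?_⟩
  rw [hj']
  constructor
  · omega
  · omega
  · exact min_step h0 (hge 4 (by omega)) (fun h7 => hge 6 (by omega)) (fun h7 => hge 5 (by omega))
  · exact le_trans (Nat.mul_le_mul_right _ (by omega)) hphi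
  · have e1 : (N + l) * (x + k + (r + 1)) = (N + l) * (x + r) + (k + 1) * (N + l) := by
      ring
    have e2 : (N + 2 + (r + 1)) * (N + 3 + (r + 1)) =
        (N + 2 + r) * (N + 3 + r) + 2 * (N + 3 + r) := by ring
    have e3 : (b + 1) * (t + 1) = (b + 1) * t + (b + 1) := by ring
    have e4 : 2 * (t + 1) * N + (t + 1) * (t + 1) = 2 * t * N + t * t + (2 * N + 2 * t + 1) := by
      ring
    rw [e1, e2, e3, e4]
    omega

theorem loss_le (ht : 84 * t ≤ 32 * N + 105) : 2 * t * N + t * t ≤ (N + 2) * (N + 3) := by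
  have h1 : (84 * t) * (84 * t) ≤ (32 * N + 105) * (32 * N + 105) := Nat.mul_le_mul ht ht
  have h2 : (84 * t) * N ≤ (32 * N + 105) * N := Nat.mul_le_mul_right _ ht
  nlinarith

theorem PN.cap (h : PN b N t l r x i) (hN : 1 ≤ N) (ht1 : 1 ≤ t) (ht : 84 * t ≤ 32 * N + 105) :
    (b + 1) * t ≤ (N + l) * (x + r) + cp (N + l) l + cp (x + r) (N + 2 + r) := by
  have hsl := h.hsl
  have h0 := h.hmin
  have hx4 : 4 * t ≤ x := by omega
  have e1 : 2 * cp (N + l) l = l * (l + 1) := cp_full (by omega)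
  rcases Nat.lt_or_ge (N + 2) x with h3 | h3
  · have e2 : 2 * cp (x + r) (N + 2 + r) = (N + 2 + r) * (N + 2 + r + 1) := cp_full (by omega)
    have e3 : (N + 2 + r) * (N + 2 + r + 1) = (N + 2 + r) * (N + 3 + r) := by ring
    have e4 := loss_le ht
    rw [e3] at e2
    omega
  · have e2 := cp_part (a := x + r) (k := N + 2 + r) (by omega) (by omega)
    have e3 : (N + 2 + r) * (N + 2 + r + 1) = (N + 2 + r) * (N + 3 + r) := by ring
    rw [e3] at e2
    obtain ⟨y, hy⟩ : ∃ y, y = N + 2 + r + 1 - (x + r) := ⟨_, rfl⟩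
    rw [← hy] at e2
    obtain ⟨z, hz⟩ : ∃ z, N + 3 = z + 4 * t := ⟨N + 3 - 4 * t, by omega⟩
    have hyz : y ≤ z := by omega
    have h4 : y * (y + 1) ≤ z * (z + 1) := Nat.mul_le_mul hyz (by omega)
    have h5 : z * (z + 1) + (2 * t * N + t * t) ≤ (N + 2) * (N + 3) := by
      rcases Nat.eq_zero_or_pos z with hz0 | hz0
      · have hN' : N = 4 * t - 3 := by omega
        obtain ⟨s, rfl⟩ : ∃ s, t = s + 1 := ⟨t - 1, by omega⟩
        have hN2 : N = 4 * s + 1 := by omega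
        rw [hz0, hN2]
        nlinarith
      · obtain ⟨s, rfl⟩ : ∃ s, t = s + 1 := ⟨t - 1, by omega⟩
        have hN2 : N = z + 4 * s + 1 := by omega
        rw [hN2]
        nlinarith
    omega

theorem PN.safeW (h : PN b N t l r x i) (hN : 1 ≤ N) (hb : 9 * N + 25 ≤ b)
    (ht : 84 * t ≤ 32 * N + 105) (hx : 2 * N + 2 ≤ x) : 2 * (t + W (N + l) i) ≤ b := by
  have h1 := W_le4 (a := N + l) (i := i) (by omega)
  have h2 := h.ht
  have h3 := h.hi
  omega

/-- The positions after `t` of the first rounds. -/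
def PreS (b N t : ℕ) (P : Position n) : Prop :=
  ∃ (A B : Finset (Fin n)) (l r x i : ℕ), St P A B l (N + 2 + r) ∧ A.card = N + l ∧
    B.card = x + r ∧ P.card = (b + 1) * t ∧ x < 2 * N + 2 ∧ PN b N t l r x i

theorem pre_finish {P₁ : Position n} (hn : n = b + N) (hN : 1 ≤ N) (hb : 9 * N + 25 ≤ b)
    (h : St P₁ A B l (N + 2 + r)) (hA : A.card = N + l) (hB : B.card = x + r)
    (hp : PN b N t l r x i) (ht1 : 1 ≤ t) (ht : 84 * t ≤ 32 * N + 105)
    (h1 : P₁.card ≤ (b + 1) * t) :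
    ∃ P₂ : Position n, P₁ ⊆ P₂ ∧ P₂.card ≤ (b + 1) * t ∧
      (P₂.card = (b + 1) * t ∨ undirected P₂ = ∅) ∧
      (Fnl b P₂ ∨ SafeS b N t P₂ ∨ PreS b N t P₂) := by
  have e1 := hp.ht
  have e2 := hp.hi
  rcases Nat.lt_or_ge x (2 * N + 2) with hx | hx
  · have hcap := hp.cap hN ht1 ht
    rw [← hA, ← hB] at hcap
    obtain ⟨P₂, h3, h4, h5⟩ := close_burn (T := (b + 1) * t) h (by omega) (by omega) h1 hcap
    exact ⟨P₂, h3, h4.le, Or.inl h4,
      Or.inr (Or.inr ⟨A, B, l, r, x, i, h5, hA, hB, h4, hx, hp⟩)⟩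
  · obtain ⟨γ, hγ⟩ : ∃ γ, x + r = 2 * N + γ := ⟨x + r - 2 * N, by omega⟩
    have hG : 2 * ((b + 1) * t) ≤ G N (N + l + γ) := by
      rw [G_eq, ← hγ]
      have h3 := hp.hsl
      have h4 := loss_le ht
      have h5 : (N + 2 + r) * (N + 3 + r) ≤ (N + γ) * (N + γ + 1) :=
        Nat.mul_le_mul (by omega) (by omega)
      omega
    obtain ⟨P₂, h3, h4, h5, h6⟩ := to_safe (α := l) (γ := γ) (i := i) hn hN
      (st_mono h le_rfl (by omega)) hA (by omega) (by omega) h1 hG (hp.safeW hN hb ht hx) hp.hphi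
    refine ⟨P₂, h3, h4, h5, ?_⟩
    rcases h6 with h6 | h6
    · exact Or.inl h6
    · exact Or.inr (Or.inl h6)

theorem pre_step (hn : n = b + N) (hN : 1 ≤ N) (hb : 9 * N + 25 ≤ b) (h : PreS b N t P)
    (huv : u ≠ v) (h1 : (u, v) ∉ P) (h2 : (v, u) ∉ P) :
    ∃ P' : Position n, P ⊆ P' ∧ (u, v) ∈ P' ∧ P'.card ≤ P.card + b + 1 ∧
      (P'.card = P.card + b + 1 ∨ undirected P' = ∅) ∧
      (Fnl b P' ∨ SafeS b N (t + 1) P' ∨ PreS b N (t + 1) P') := by
  obtain ⟨A, B, l, r, x, i, hst, hA, hB, hc, hx, hp⟩ := h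
  obtain ⟨kL, hkL⟩ : ∃ k, k = i / (N + l + 1) := ⟨_, rfl⟩
  obtain ⟨kR, hkR⟩ : ∃ k, k = (b - 2 * N - 2 - t) / (N + l) := ⟨_, rfl⟩
  obtain ⟨a1, a2, a3⟩ := hp.left hN hb hx hkL
  obtain ⟨b1, b2, b3⟩ := hp.right hN hb hx hkR
  have hbd := hp.bound hx
  have e1 := hp.ht
  have e2 := hp.hi
  have hT : P.card + b + 1 = (b + 1) * (t + 1) := by
    rw [hc]
    ring
  rw [hT]
  rcases round hst (by omega) huv h1 h2 (mL := kL) (mR := kR) (by omega) (by omega) with
      ⟨P₁, A', B', hP₁, hm, hA', hB', hst', hc'⟩ | ⟨P₁, A', B', hP₁, hm, hA', hB', hst', hc'⟩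
  · have hc2 : P₁.card ≤ (b + 1) * (t + 1) := by
      rw [← hT]
      rw [hA] at hc'
      omega
    obtain ⟨P₂, h3, h4, h5, h6⟩ := pre_finish (t := t + 1) (l := l + 1) (r := r) (x := x + kL)
      (i := i - 1 - kL) hn hN hb hst' (by omega) (by omega) a3 (by omega) (by omega) hc2
    exact ⟨P₂, hP₁.trans h3, h3 hm, h4, h5, h6⟩
  · have hc2 : P₁.card ≤ (b + 1) * (t + 1) := by
      rw [← hT]
      rw [hA] at hc'
      omega
    obtain ⟨P₂, h3, h4, h5, h6⟩ := pre_finish (t := t + 1) (l := l) (r := r + 1) (x := x + kR)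
      (i := i - 1 - kR) hn hN hb hst' (by omega) (by omega) b3 (by omega) (by omega) hc2
    exact ⟨P₂, hP₁.trans h3, h3 hm, h4, h5, h6⟩

theorem st_start (A : Finset (Fin n)) (k : ℕ) : St (∅ : Position n) A ∅ 0 k where
  irr x := notMem_empty _
  trans x y z h := absurd h (notMem_empty _)
  disj x _ h := absurd h (notMem_empty _)
  full a _ b h := absurd h (notMem_empty _)
  loc x y h := absurd h (notMem_empty _)
  nestD x y _ _ := by
    left
    intro z hz
    exact absurd (mem_Dn.mp hz) (notMem_empty _)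
  nestU x y _ _ := by
    left
    intro z hz
    exact absurd (mem_Up.mp hz) (notMem_empty _)
  envU x _ := by
    have h : ∀ x : Fin n, Dn (∅ : Position n) x = ∅ := by
      intro x
      ext z
      simp [mem_Dn]
    simp [h]
  envD x _ := by
    have h : ∀ x : Fin n, Up (∅ : Position n) x = ∅ := by
      intro x
      ext z
      simp [mem_Up]
    simp [h]

/-- OBreaker wins the strict game if `10 b ≥ 9 n + 25`. -/
theorem breaker_strict (n b : ℕ) (hb : 9 * n + 25 ≤ 10 * b) :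
    ¬ OMakerWins (strictRule b) (∅ : Position n) := by
  intro hw
  by_cases hnb : n ≤ b
  · refine not_wins_strict (Fnl b) ?_ ?_ hw
      ⟨univ, ∅, 0, 0, st_start univ 0, fun x => Or.inl (mem_univ x), by simpa using hnb, by simp⟩
    · rintro P ⟨A, B, kU, kD, h, -⟩
      exact ⟨A, B, kU, kD, h⟩
    · intro P u v h huv h1 h2
      obtain ⟨P₁, g1, g2, g3, g4⟩ := fnl_step h huv h1 h2
      obtain ⟨P₂, k1, k2, k3, k4⟩ := fnl_burn (P.card + b + 1 - P₁.card) P₁ g3
      refine ⟨P₂, g1.trans k1, k1 g2, k3, by omega, ?_⟩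
      rcases k4 with k4 | k4
      · exact Or.inl (by omega)
      · exact Or.inr k4
  · obtain ⟨N, hN⟩ : ∃ N, n = b + N := ⟨n - b, by omega⟩
    have hN1 : 1 ≤ N := by omega
    have hb' : 9 * N + 25 ≤ b := by omega
    obtain ⟨A, -, hA⟩ := exists_subset_card_eq (s := (univ : Finset (Fin n))) (n := N) (by
      rw [card_univ, Fintype.card_fin]
      omega)
    refine not_wins_strict
      (fun P => Fnl b P ∨ (∃ t, SafeS b N t P) ∨ (∃ t, PreS b N t P)) ?_ ?_ hw
      (Or.inr (Or.inr ⟨0, A, ∅, 0, 0, 0, b, st_start A _, by omega, by simp, by simp, by omega,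
        ⟨rfl, by omega, Or.inl (by omega), by simp, by simp⟩⟩))
    · rintro P (⟨A, B, kU, kD, h, -⟩ | ⟨t, A, B, α, γ, i, h, -⟩ | ⟨t, A, B, l, r, x, i, h, -⟩)
      · exact ⟨A, B, kU, kD, h⟩
      · exact ⟨A, B, _, _, h⟩
      · exact ⟨A, B, _, _, h⟩
    · intro P u v h huv h1 h2
      rcases h with h | ⟨t, h⟩ | ⟨t, h⟩
      · obtain ⟨P₁, g1, g2, g3, g4⟩ := fnl_step h huv h1 h2
        obtain ⟨P₂, k1, k2, k3, k4⟩ := fnl_burn (P.card + b + 1 - P₁.card) P₁ g3
        refine ⟨P₂, g1.trans k1, k1 g2, Or.inl k3, by omega, ?_⟩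
        rcases k4 with k4 | k4
        · exact Or.inl (by omega)
        · exact Or.inr k4
      · obtain ⟨P', g1, g2, g3, g4, g5⟩ := safe_step hN hN1 (by omega) h huv h1 h2
        refine ⟨P', g1, g2, ?_, g3, g4⟩
        rcases g5 with g5 | g5
        · exact Or.inl g5
        · exact Or.inr (Or.inl ⟨_, g5⟩)
      · obtain ⟨P', g1, g2, g3, g4, g5⟩ := pre_step hN hN1 hb' h huv h1 h2
        refine ⟨P', g1, g2, ?_, g3, g4⟩
        rcases g5 with g5 | g5 | g5
        · exact Or.inl g5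
        · exact Or.inr (Or.inl ⟨_, g5⟩)
        · exact Or.inr (Or.inr ⟨_, g5⟩)

end Pool.Agent.Helper16_OCG
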