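import Pool.Agent.Helper16_OCG.StrictNum

/-!
# MP_64dd91_co: the strict strategy in safe positions
-/

set_option autoImplicit false

namespace Pool.Agent.Helper16_OCG

open Finset Pool.Agent.Helper51_OCG Pool.Agent.Helper15_OCG

variable {n : ℕ} {P : Position n} {A B : Finset (Fin n)} {kU kD b N : ℕ} {u v : Fin n}

theorem G_eq (N α γ : ℕ) : G N (N + α + γ) =
    2 * ((N + α) * (2 * N + γ)) + α * (α + 1) + (N + γ) * (N + γ + 1) := by
  unfold G
  ring

theorem close_burn {P₁ : Position n} {T : ℕ} (h : St P₁ A B kU kD) (hU : kU + B.card < n)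
    (hD : kD + A.card < n) (h1 : P₁.card ≤ T)
    (h2 : T ≤ A.card * B.card + cp A.card kU + cp B.card kD) :
    ∃ P₂ : Position n, P₁ ⊆ P₂ ∧ P₂.card = T ∧ St P₂ A B kU kD := by
  obtain ⟨P₂, h3, h4, h5⟩ := burn hU hD (T - P₁.card) P₁ h (by omega)
  exact ⟨P₂, h3, by omega, h5⟩

theorem close_fnl {P₁ : Position n} {T : ℕ} (h : St P₁ A B kU kD) (hn : A.card + B.card = n)
    (hA : A.card ≤ b) (hB : B.card ≤ b) (h1 : P₁.card ≤ T) :
    ∃ P₂ : Position n, P₁ ⊆ P₂ ∧ P₂.card ≤ T ∧ (P₂.card = T ∨ undirected P₂ = ∅) ∧ Fnl b P₂ := by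
  have hall : ∀ x, x ∈ A ∨ x ∈ B := by
    have hd : Disjoint A B := Finset.disjoint_left.mpr fun {x} hx hx' => h.disj x hx hx'
    have h2 : A ∪ B = univ := by
      rw [← card_eq_iff_eq_univ, card_union_of_disjoint hd, hn, Fintype.card_fin]
    intro x
    rw [← mem_union, h2]
    exact mem_univ x
  obtain ⟨P₂, h3, h4, h5, h6⟩ := fnl_burn (T - P₁.card) P₁ ⟨A, B, kU, kD, h, hall, hA, hB⟩
  refine ⟨P₂, h3, by omega, ?_, h5⟩
  rcases h6 with h6 | h6
  · exact Or.inl (by omega)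
  · exact Or.inr h6

/-- Safe positions after `t` rounds. -/
def SafeS (b N t : ℕ) (P : Position n) : Prop :=
  ∃ (A B : Finset (Fin n)) (α γ i : ℕ), St P A B α (N + γ) ∧ A.card = N + α ∧
    B.card = 2 * N + γ ∧ n = A.card + B.card + i ∧ 1 ≤ i ∧ P.card = (b + 1) * t ∧
    2 * ((b + 1) * t) ≤ G N (N + α + γ) ∧ 2 * (t + W (N + α) i) ≤ b ∧ i * (N + α) ≤ b * N

theorem to_safe {P₁ : Position n} {α γ i t : ℕ} (hn : n = b + N) (hN : 1 ≤ N)
    (h : St P₁ A B α (N + γ)) (hA : A.card = N + α) (hB : B.card = 2 * N + γ)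
    (hi : n = A.card + B.card + i) (h1 : P₁.card ≤ (b + 1) * t)
    (hG : 2 * ((b + 1) * t) ≤ G N (N + α + γ)) (hW : 2 * (t + W (N + α) i) ≤ b)
    (hphi : i * (N + α) ≤ b * N) :
    ∃ P₂ : Position n, P₁ ⊆ P₂ ∧ P₂.card ≤ (b + 1) * t ∧
      (P₂.card = (b + 1) * t ∨ undirected P₂ = ∅) ∧ (Fnl b P₂ ∨ SafeS b N t P₂) := by
  rcases Nat.eq_zero_or_pos i with h0 | h0
  · obtain ⟨P₂, h3, h4, h5, h6⟩ := close_fnl (b := b) h (by omega) (by omega) (by omega) h1
    exact ⟨P₂, h3, h4, h5, Or.inl h6⟩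
  · have e1 : 2 * cp A.card α = α * (α + 1) := cp_full (by omega)
    have e2 : 2 * cp B.card (N + γ) = (N + γ) * (N + γ + 1) := cp_full (by omega)
    have e3 : A.card * B.card = (N + α) * (2 * N + γ) := by rw [hA, hB]
    have hG' := hG
    rw [G_eq] at hG'
    obtain ⟨P₂, h3, h4, h5⟩ := close_burn (T := (b + 1) * t) h (by omega) (by omega) h1 (by omega)
    exact ⟨P₂, h3, h4.le, Or.inl h4, Or.inr ⟨A, B, α, γ, i, h5, hA, hB, hi, h0, h4, hG, hW, hphi⟩⟩

theorem safe_step {t : ℕ} (hn : n = b + N) (hN : 1 ≤ N) (h9 : 9 * N ≤ b) (h : SafeS b N t P)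
    (huv : u ≠ v) (h1 : (u, v) ∉ P) (h2 : (v, u) ∉ P) :
    ∃ P' : Position n, P ⊆ P' ∧ (u, v) ∈ P' ∧ P'.card ≤ P.card + b + 1 ∧
      (P'.card = P.card + b + 1 ∨ undirected P' = ∅) ∧ (Fnl b P' ∨ SafeS b N (t + 1) P') := by
  obtain ⟨A, B, α, γ, i, hst, hA, hB, hi, hi1, hc, hG, hW, hphi⟩ := h
  obtain ⟨k, hk⟩ : ∃ k, k = i / (N + α + 1) := ⟨_, rfl⟩
  have hb : b = 2 * N + α + γ + i := by omega
  have hk1 : k * (N + α + 1) ≤ i := by
    rw [hk]
    exact Nat.div_mul_le_self _ _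
  have hk2 : i < (k + 1) * (N + α + 1) := by
    rw [hk]
    have := Nat.lt_div_mul_add (a := i) (b := N + α + 1) (by omega)
    calc i < i / (N + α + 1) * (N + α + 1) + (N + α + 1) := this
      _ = _ := by ring
  have hk3 : 2 * k ≤ i := by
    have : k * 2 ≤ k * (N + α + 1) := Nat.mul_le_mul_left _ (by omega)
    omega
  obtain ⟨j, hj⟩ : ∃ j, i = j + 1 + k := ⟨i - 1 - k, by omega⟩
  have hG' : 2 * ((b + 1) * (t + 1)) ≤ G N (N + α + γ + 1 + k) := by
    rcases Nat.eq_zero_or_pos k with h0 | h0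
    · rw [h0]
      refine kstep_zero hb hi1 ?_
      have h3 := le_W i (N + α) (by
        rw [h0] at hk2
        omega)
      omega
    · exact kstep_pos hN hb h9 hphi hk h0 hG
  have hWp : W (N + α) i = 1 + W (N + α + 1) j := by
    rw [W_pos hi1, ← hk]
    congr 2
    omega
  rw [hWp] at hW
  have hphi' : j * (N + α + 1) ≤ b * N := by
    refine le_trans ?_ hphi
    have e1 : i * (N + α + 1) = i * (N + α) + i := by ring
    have e2 : i * (N + α + 1) = j * (N + α + 1) + (k + 1) * (N + α + 1) := by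
      rw [hj]
      ring
    omega
  have hT : P.card + b + 1 = (b + 1) * (t + 1) := by
    rw [hc]
    ring
  rw [hT]
  rcases round hst (by omega) huv h1 h2 (mL := k) (mR := k) (by omega) (by omega) with
      ⟨P₁, A', B', hP₁, hm, hA', hB', hst', hc'⟩ | ⟨P₁, A', B', hP₁, hm, hA', hB', hst', hc'⟩
  · have hmono : W (N + (α + 1)) j = W (N + α + 1) j := rfl
    have hc2 : P₁.card ≤ (b + 1) * (t + 1) := by
      rw [← hT]
      rw [hA] at hc'
      omega
    obtain ⟨P₂, h3, h4, h5, h6⟩ := to_safe (t := t + 1) (α := α + 1) (γ := γ + k) (i := j) hn hN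
      (st_mono hst' le_rfl (by omega)) (by omega) (by omega) (by omega) hc2
      (by
        have e : N + (α + 1) + (γ + k) = N + α + γ + 1 + k := by ring
        rw [e]
        exact hG') (by rw [hmono]; omega) hphi'
    exact ⟨P₂, hP₁.trans h3, h3 hm, h4, h5, h6⟩
  · have hmono : W (N + α) j ≤ W (N + α + 1) j := W_mono j _ _ _ (by omega) le_rfl
    have hc2 : P₁.card ≤ (b + 1) * (t + 1) := by
      rw [← hT]
      rw [hA] at hc'
      have : k * (N + α) ≤ k * (N + α + 1) := Nat.mul_le_mul_left _ (by omega)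
      omega
    obtain ⟨P₂, h3, h4, h5, h6⟩ := to_safe (t := t + 1) (α := α) (γ := γ + 1 + k) (i := j) hn hN
      (st_mono hst' le_rfl (by omega)) (by omega) (by omega) (by omega) hc2
      (by
        have e : N + α + (γ + 1 + k) = N + α + γ + 1 + k := by ring
        rw [e]
        exact hG') (by omega) (le_trans (Nat.mul_le_mul_left _ (by omega)) hphi')
    exact ⟨P₂, hP₁.trans h3, h3 hm, h4, h5, h6⟩

end Pool.Agent.Helper16_OCG
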