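import Pool.Agent.Helper15_OCG.Strategy

/-!
# MP_64dd91_co: extension of a two-layer position by exactly one relation
-/

set_option autoImplicit false

namespace Pool.Agent.Helper16_OCG

open Finset Pool.Agent.Helper51_OCG Pool.Agent.Helper15_OCG

variable {n : ℕ} {P : Position n} {A B : Finset (Fin n)} {kU kD : ℕ}

/-- The vertices outside `B` with more than `s` predecessors. -/
def wU (P : Position n) (B : Finset (Fin n)) (s : ℕ) : Finset (Fin n) :=
  univ.filter fun y => y ∉ B ∧ s < (Dn P y).card

theorem mem_wU {s : ℕ} {y : Fin n} : y ∈ wU P B s ↔ y ∉ B ∧ s < (Dn P y).card := by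
  simp [wU]

theorem Dn_insert {w c z : Fin n} :
    Dn (insert (w, c) P) z = if z = c then insert w (Dn P c) else Dn P z := by
  ext x
  rw [mem_Dn, mem_insert, Prod.mk.injEq]
  by_cases hz : z = c
  · subst hz
    rw [if_pos rfl, mem_insert, mem_Dn]
    constructor
    · rintro (⟨h1, -⟩ | h1)
      · exact Or.inl h1
      · exact Or.inr h1
    · rintro (h1 | h1)
      · exact Or.inl ⟨h1, rfl⟩
      · exact Or.inr h1
  · rw [if_neg hz, mem_Dn]
    constructor
    · rintro (⟨-, h1⟩ | h1)
      · exact absurd h1 hz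
      · exact h1
    · exact Or.inr

theorem Up_insert {w c z : Fin n} (hz : z ≠ w) : Up (insert (w, c) P) z = Up P z := by
  ext x
  rw [mem_Up, mem_insert, Prod.mk.injEq, mem_Up]
  constructor
  · rintro (⟨h1, -⟩ | h1)
    · exact absurd h1 hz
    · exact h1
  · exact Or.inr

/-- One relation is added. -/
theorem st_add (h : St P A B kU kD) {w c : Fin n} (hw : w ∈ A) (hc : c ∉ B) (hwc : w ≠ c)
    (hab : ∀ z, z ∉ B → Dn P c ⊂ Dn P z → w ∈ Dn P z)
    (henv : (Dn P c).card + 1 + (univ.filter fun z => z ∉ B ∧ Dn P c ⊂ Dn P z).card ≤ kU) :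
    St (insert (w, c) P) A B kU kD := by
  have hwB : w ∉ B := h.disj w hw
  have hsub : Dn P w ⊆ Dn P c := by
    rcases h.nestD w c hwB hc with h1 | h1
    · exact h1
    · by_contra hcon
      exact h.irr w (mem_Dn.mp (hab w hwB ⟨h1, hcon⟩))
  have key : ∀ z, z ∉ B → z ≠ c → Dn P z ⊆ Dn P c ∨ insert w (Dn P c) ⊆ Dn P z := by
    intro z hz _
    rcases h.nestD z c hz hc with h1 | h1
    · exact Or.inl h1
    · by_cases h2 : Dn P z ⊆ Dn P c
      · exact Or.inl h2
      · exact Or.inr (insert_subset (hab z hz ⟨h1, h2⟩) h1)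
  constructor
  · intro x hx
    rw [mem_insert, Prod.mk.injEq] at hx
    rcases hx with ⟨h1, h2⟩ | hx
    · exact hwc (h1.symm.trans h2)
    · exact h.irr x hx
  · intro x y z hxy hyz
    rw [mem_insert, Prod.mk.injEq] at hxy hyz ⊢
    rcases hxy with ⟨rfl, rfl⟩ | hxy
    · rcases hyz with ⟨h1, -⟩ | hyz
      · exact absurd h1.symm hwc
      · right
        by_cases hz : z ∈ B
        · exact h.full x hw z hz
        · refine mem_Dn.mp (hab z hz ⟨Dn_mono h hyz, fun h2 => ?_⟩)
          exact h.irr y (mem_Dn.mp (h2 (mem_Dn.mpr hyz)))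
    · rcases hyz with ⟨rfl, rfl⟩ | hyz
      · right
        exact mem_Dn.mp (hsub (mem_Dn.mpr hxy))
      · exact Or.inr (h.trans x y z hxy hyz)
  · exact h.disj
  · intro a ha b hb
    exact mem_insert_of_mem (h.full a ha b hb)
  · intro x y hxy
    rw [mem_insert, Prod.mk.injEq] at hxy
    rcases hxy with ⟨rfl, rfl⟩ | hxy
    · exact Or.inl hw
    · exact h.loc x y hxy
  · intro x y hx hy
    rw [Dn_insert, Dn_insert]
    by_cases hxc : x = c
    · rw [if_pos hxc]
      by_cases hyc : y = c
      · rw [if_pos hyc]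
        exact Or.inl (Subset.refl _)
      · rw [if_neg hyc]
        rcases key y hy hyc with h1 | h1
        · exact Or.inr (h1.trans (subset_insert _ _))
        · exact Or.inl h1
    · rw [if_neg hxc]
      by_cases hyc : y = c
      · rw [if_pos hyc]
        rcases key x hx hxc with h1 | h1
        · exact Or.inl (h1.trans (subset_insert _ _))
        · exact Or.inr h1
      · rw [if_neg hyc]
        exact h.nestD x y hx hy
  · intro x y hx hy
    have hxw : x ≠ w := fun h1 => hx (h1 ▸ hw)
    have hyw : y ≠ w := fun h1 => hy (h1 ▸ hw)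
    rw [Up_insert hxw, Up_insert hyw]
    exact h.nestU x y hx hy
  · intro x hx
    by_cases hxc : x = c
    · subst hxc
      have hs : (univ.filter fun y => y ∉ B ∧ Dn (insert (w, x) P) x ⊂ Dn (insert (w, x) P) y) ⊆
          univ.filter fun z => z ∉ B ∧ Dn P x ⊂ Dn P z := by
        intro y hy
        rw [mem_filter] at hy ⊢
        obtain ⟨-, hyB, hy2⟩ := hy
        refine ⟨mem_univ _, hyB, ?_⟩
        rw [Dn_insert, if_pos rfl, Dn_insert] at hy2
        by_cases hyx : y = x
        · rw [if_pos hyx] at hy2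
          exact absurd hy2 (ssubset_irrefl _)
        · rw [if_neg hyx] at hy2
          exact ⟨(subset_insert _ _).trans hy2.1, fun h3 => hy2.2 (h3.trans (subset_insert _ _))⟩
      have h1 := card_le_card hs
      have h2 : (Dn (insert (w, x) P) x).card ≤ (Dn P x).card + 1 := by
        rw [Dn_insert, if_pos rfl]
        exact card_insert_le _ _
      omega
    · have hDx : Dn (insert (w, c) P) x = Dn P x := by rw [Dn_insert, if_neg hxc]
      rw [hDx]
      by_cases heq : Dn P x = Dn P c
      · have hs : (univ.filter fun y => y ∉ B ∧ Dn P x ⊂ Dn (insert (w, c) P) y) ⊆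
            insert c (univ.filter fun z => z ∉ B ∧ Dn P c ⊂ Dn P z) := by
          intro y hy
          rw [mem_filter] at hy
          obtain ⟨-, hyB, hy2⟩ := hy
          rw [mem_insert, mem_filter]
          by_cases hyc : y = c
          · exact Or.inl hyc
          · right
            refine ⟨mem_univ _, hyB, ?_⟩
            rw [Dn_insert, if_neg hyc, heq] at hy2
            exact hy2
        have h1 := (card_le_card hs).trans (card_insert_le _ _)
        rw [heq] at h1 ⊢
        omega
      · have hs : (univ.filter fun y => y ∉ B ∧ Dn P x ⊂ Dn (insert (w, c) P) y) ⊆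
            univ.filter fun z => z ∉ B ∧ Dn P x ⊂ Dn P z := by
          intro y hy
          rw [mem_filter] at hy ⊢
          obtain ⟨-, hyB, hy2⟩ := hy
          refine ⟨mem_univ _, hyB, ?_⟩
          rw [Dn_insert] at hy2
          by_cases hyc : y = c
          · rw [if_pos hyc] at hy2
            rw [hyc]
            rcases key x hx hxc with h1 | h1
            · refine ⟨h1, fun h3 => heq (Subset.antisymm h1 h3)⟩
            · exact absurd h1 hy2.2
          · rw [if_neg hyc] at hy2
            exact hy2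
        have h1 := card_le_card hs
        have h2 := h.envU x hx
        omega
  · intro x hx
    have hxw : x ≠ w := fun h1 => hx (h1 ▸ hw)
    have hs : (univ.filter fun y => y ∉ A ∧ Up (insert (w, c) P) x ⊂ Up (insert (w, c) P) y) ⊆
        univ.filter fun z => z ∉ A ∧ Up P x ⊂ Up P z := by
      intro y hy
      rw [mem_filter] at hy ⊢
      obtain ⟨-, hyA, hy2⟩ := hy
      have hyw : y ≠ w := fun h1 => hyA (h1 ▸ hw)
      rw [Up_insert hxw, Up_insert hyw] at hy2
      exact ⟨mem_univ _, hyA, hy2⟩
    have h1 := card_le_card hs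
    have h2 := h.envD x hx
    rw [Up_insert hxw] at h1 ⊢
    omega

theorem add_card (h : St P A B kU kD) {w c : Fin n} (hw : w ∈ A) (hc : c ∉ B) (hwc : w ≠ c)
    (hwD : w ∉ Dn P c) (hab : ∀ z, z ∉ B → Dn P c ⊂ Dn P z → w ∈ Dn P z)
    (henv : (Dn P c).card + 1 + (univ.filter fun z => z ∉ B ∧ Dn P c ⊂ Dn P z).card ≤ kU) :
    ∃ P' : Position n, P ⊆ P' ∧ P'.card = P.card + 1 ∧ St P' A B kU kD :=
  ⟨insert (w, c) P, subset_insert _ _,
    card_insert_of_notMem fun h1 => hwD (mem_Dn.mpr h1), st_add h hw hc hwc hab henv⟩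

/-- nested sets of the same size are equal -/
theorem eq_of_card (h : St P A B kU kD) {x y : Fin n} (hx : x ∉ B) (hy : y ∉ B)
    (hc : (Dn P x).card = (Dn P y).card) : Dn P x = Dn P y := by
  rcases h.nestD x y hx hy with h1 | h1
  · exact eq_of_subset_of_card_le h1 hc.ge
  · exact (eq_of_subset_of_card_le h1 hc.le).symm

theorem sub_of_card (h : St P A B kU kD) {x y : Fin n} (hx : x ∉ B) (hy : y ∉ B)
    (hc : (Dn P x).card ≤ (Dn P y).card) : Dn P x ⊆ Dn P y := by
  rcases h.nestD x y hx hy with h1 | h1
  · exact h1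
  · exact (eq_of_subset_of_card_le h1 hc).ge

/-- Unit extension from a level which is not full, or only one vertex at this level. -/
theorem unit_aux (h : St P A B kU kD) (hY : kU < (univ.filter fun y => y ∉ B).card) (s : ℕ)
    (hs : s + 1 < A.card) (hw : (wU P B s).card + s < kU) :
    (∃ P' : Position n, P ⊆ P' ∧ P'.card = P.card + 1 ∧ St P' A B kU kD) ∨
      ∃ y₀, y₀ ∉ B ∧ (Dn P y₀).card = s ∧
        ∀ y, y ∉ B → (Dn P y).card ≤ s → y ≠ y₀ → (Dn P y).card < s := by
  -- the largest set of size at most `s`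
  have hne : (univ.filter fun y => y ∉ B ∧ (Dn P y).card ≤ s).Nonempty := by
    by_contra hcon
    rw [not_nonempty_iff_eq_empty, filter_eq_empty_iff] at hcon
    have h1 : (univ.filter fun y => y ∉ B) ⊆ wU P B s := by
      intro y hy
      rw [mem_filter] at hy
      refine mem_wU.mpr ⟨hy.2, ?_⟩
      by_contra h2
      exact hcon (mem_univ y) ⟨hy.2, not_lt.mp h2⟩
    have := card_le_card h1
    omega
  obtain ⟨c, hc, hmax⟩ := exists_max_image _ (fun y => (Dn P y).card) hne
  rw [mem_filter] at hc
  obtain ⟨-, hcB, hcs⟩ := hc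
  have hmax' : ∀ y, y ∉ B → (Dn P y).card ≤ s → (Dn P y).card ≤ (Dn P c).card :=
    fun y hy hys => hmax y (mem_filter.mpr ⟨mem_univ _, hy, hys⟩)
  have habove : (univ.filter fun z => z ∉ B ∧ Dn P c ⊂ Dn P z) ⊆ wU P B s := by
    intro z hz
    rw [mem_filter] at hz
    refine mem_wU.mpr ⟨hz.2.1, ?_⟩
    by_contra h2
    have h3 := hmax' z hz.2.1 (not_lt.mp h2)
    have h4 := card_lt_card hz.2.2
    omega
  have henv : (Dn P c).card + 1 + (univ.filter fun z => z ∉ B ∧ Dn P c ⊂ Dn P z).card ≤ kU := by
    have := card_le_card habove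
    omega
  have hDA : ∀ x z, z ∉ B → x ∈ Dn P z → x ∈ A := by
    intro x z hz hx
    rcases h.loc x z (mem_Dn.mp hx) with h1 | h1
    · exact h1
    · exact absurd h1 hz
  by_cases hemp : wU P B s = ∅
  · -- no larger set
    left
    have hcard : 1 < (A \ Dn P c).card := by
      have := le_card_sdiff (Dn P c) A
      omega
    obtain ⟨w, hw1, hw2⟩ := exists_mem_ne hcard c
    rw [mem_sdiff] at hw1
    refine add_card h hw1.1 hcB hw2 hw1.2 ?_ henv
    intro z hz hz2
    have := habove (mem_filter.mpr ⟨mem_univ _, hz, hz2⟩)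
    rw [hemp] at this
    exact absurd this (notMem_empty _)
  · -- the smallest larger set
    obtain ⟨z₀, hz₀, hmin⟩ := exists_min_image _ (fun y => (Dn P y).card)
      (nonempty_iff_ne_empty.mpr hemp)
    rw [mem_wU] at hz₀
    have hall : ∀ z, z ∉ B → s < (Dn P z).card → Dn P z₀ ⊆ Dn P z := fun z hz hzs =>
      sub_of_card h hz₀.1 hz (hmin z (mem_wU.mpr ⟨hz, hzs⟩))
    have hcz : Dn P c ⊆ Dn P z₀ := sub_of_card h hcB hz₀.1 (by omega)
    have hab : ∀ c', c' ∉ B → Dn P c' = Dn P c → ∀ w ∈ Dn P z₀, ∀ z, z ∉ B →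
        Dn P c' ⊂ Dn P z → w ∈ Dn P z := by
      intro c' hc' hcc w hw0 z hz hz2
      rw [hcc] at hz2
      have h5 := habove (mem_filter.mpr ⟨mem_univ _, hz, hz2⟩)
      exact hall z hz (mem_wU.mp h5).2 hw0
    by_cases hex : ∃ w ∈ Dn P z₀, w ∉ Dn P c ∧ w ≠ c
    · obtain ⟨w, hw1, hw2, hw3⟩ := hex
      left
      exact add_card h (hDA w z₀ hz₀.1 hw1) hcB hw3 hw2 (hab c hcB rfl w hw1) henv
    · push Not at hex
      have hsub : Dn P z₀ ⊆ insert c (Dn P c) := by
        intro w hw1
        rw [mem_insert]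
        by_cases hw2 : w ∈ Dn P c
        · exact Or.inr hw2
        · exact Or.inl (hex w hw1 hw2)
      have hc0 : c ∈ Dn P z₀ := by
        by_contra hcon
        have h5 : Dn P z₀ ⊆ Dn P c := by
          intro w hw1
          rcases mem_insert.mp (hsub hw1) with h6 | h6
          · rw [h6] at hw1
            exact absurd hw1 hcon
          · exact h6
        have := card_le_card h5
        omega
      have h5 := (card_le_card hsub).trans (card_insert_le _ _)
      have hcs' : (Dn P c).card = s := by omega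
      by_cases hex2 : ∃ y, y ∉ B ∧ y ≠ c ∧ (Dn P y).card = s
      · obtain ⟨y, hy1, hy2, hy3⟩ := hex2
        left
        have hyc : Dn P y = Dn P c := eq_of_card h hy1 hcB (by omega)
        refine add_card h (hDA c z₀ hz₀.1 hc0) hy1 hy2.symm ?_ (hab y hy1 hyc c hc0) ?_
        · rw [hyc]
          intro h6
          exact h.irr c (mem_Dn.mp h6)
        · rw [hyc]
          exact henv
      · push Not at hex2
        right
        refine ⟨c, hcB, hcs', fun y hy hys hyc => lt_of_le_of_ne hys (hex2 y hy hyc)⟩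

/-- Unit extension from a level which is not full. -/
theorem unit_ext (h : St P A B kU kD) (hY : kU < (univ.filter fun y => y ∉ B).card) :
    ∀ s : ℕ, s + 1 < A.card → (wU P B s).card + s < kU →
      ∃ P' : Position n, P ⊆ P' ∧ P'.card = P.card + 1 ∧ St P' A B kU kD := by
  intro s
  induction s with
  | zero =>
    intro hs hw
    rcases unit_aux h hY 0 hs hw with h1 | ⟨y₀, hy₀, -, h2⟩
    · exact h1
    · exfalso
      have h3 : (univ.filter fun y => y ∉ B) ⊆ insert y₀ (wU P B 0) := by
        intro y hy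
        rw [mem_filter] at hy
        rw [mem_insert]
        by_cases hyy : y = y₀
        · exact Or.inl hyy
        · right
          refine mem_wU.mpr ⟨hy.2, ?_⟩
          by_contra h4
          have := h2 y hy.2 (not_lt.mp h4) hyy
          omega
      have := (card_le_card h3).trans (card_insert_le _ _)
      omega
  | succ s ih =>
    intro hs hw
    rcases unit_aux h hY (s + 1) hs hw with h1 | ⟨y₀, hy₀, -, h2⟩
    · exact h1
    · have h3 : wU P B s ⊆ insert y₀ (wU P B (s + 1)) := by
        intro y hy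
        rw [mem_wU] at hy
        rw [mem_insert]
        by_cases hyy : y = y₀
        · exact Or.inl hyy
        · right
          refine mem_wU.mpr ⟨hy.1, ?_⟩
          by_contra h4
          have := h2 y hy.1 (not_lt.mp h4) hyy
          omega
      have := (card_le_card h3).trans (card_insert_le _ _)
      exact ih (by omega) (by omega)

end Pool.Agent.Helper16_OCG
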